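import Pool.Agent.V8H57.RX.Strat1

/-!
# The oracle
-/

set_option autoImplicit false

namespace Pool.Agent.V8H57.RX

open Pool.Agent.NPC Pool.Agent.H620R2.Gauge Pool.Agent.H620R2.Gauge.CC Pool.Agent.V8H57.CX

open Classical in
/-- the oracle with the two parts `K` and `S` -/
noncomputable def orc (K : Oracle) (S : Set ℕ) : Oracle
  | [] => false
  | false :: w => K w
  | true :: v => decide (num v ∈ S)

theorem exists_tasks : ∃ g : ℕ → Task, Function.Surjective g := exists_surjective_nat _

/-- an enumeration of the tasks -/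
noncomputable def tk : ℕ → Task := exists_tasks.choose

theorem tk_surj : Function.Surjective tk := exists_tasks.choose_spec

/-- the bounds -/
noncomputable def Pt (e : ℕ) : Polynomial ℕ := (tk e).exists_bd.choose

theorem Pt_bd (e : ℕ) : (tk e).Bd (Pt e) := (tk e).exists_bd.choose_spec

/-- the length of the blocks -/
noncomputable def nb (e : ℕ) : Polynomial ℕ := Polynomial.C 4 * Pt e + Polynomial.C 4

theorem nb_eval (e n : ℕ) : (nb e).eval n = 4 * (Pt e).eval n + 4 := by
  unfold nb
  simp only [Polynomial.eval_add, Polynomial.eval_mul, Polynomial.eval_C]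

/-- the strategy for a task -/
noncomputable def theAct (e : ℕ) (K : Oracle) (x : ℕ) : List (List Bool) → List Bool :=
  if (tk e).i = 0 then
    act0 ((Pt e).eval x.bits.length)
      (fun F => (tk e).C (orc (cut ((Pt e).eval x.bits.length) K) F)) (tk e).rho
      (fun F y => (asked (tk e).M (orc (cut ((Pt e).eval x.bits.length) K) F)
        (pairBits x.bits y.bits)).map (fun q => num q.tail)) x
  else
    act1 ((Pt e).eval x.bits.length)
      (fun F => (tk e).C (orc (cut ((Pt e).eval x.bits.length) K) F)) (tk e).rho x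

theorem cut_cut {m n : ℕ} (h : m ≤ n) (K : Oracle) : cut m (cut n K) = cut m K := by
  funext z
  unfold cut
  split
  · rw [if_pos (by omega)]
  · rfl

theorem theAct_cut (e : ℕ) (K : Oracle) (x n : ℕ) (h : (Pt e).eval x.bits.length ≤ n) :
    theAct e (cut n K) x = theAct e K x := by
  unfold theAct
  rw [cut_cut h]

/-- the question answered by the code strings -/
def Vq (e : ℕ) (K : Oracle) (z : List Bool) : Prop :=
  (theAct e (cut ((Pt e).eval z.length) K) (num (unpair z).1)
    (sc ((nb e).eval (num (unpair z).1).bits.length) (chron (unpair z).2)).2).getD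
    (sc ((nb e).eval (num (unpair z).1).bits.length) (chron (unpair z).2)).1.length false = true

/-- the first part of the oracle -/
noncomputable def K : Oracle := Phi Pt Vq (fun _ => false)

theorem K_code (e : ℕ) (z : List Bool) :
    K (H620R2.Gauge.code Pt e z) = true ↔ Vq e K z := by
  unfold K
  refine CC.Phi_code Pt Vq _ ?_ e z
  intro e A A' x h
  have h1 : cut ((Pt e).eval x.length) A = cut ((Pt e).eval x.length) A' := by
    funext z
    unfold cut
    split
    · rename_i hz
      exact h z (lt_of_le_of_lt hz (CC.lt_length_code Pt e x))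
    · rfl
  unfold Vq
  rw [h1]

theorem tells (e : ℕ) (x : ℕ) {O : Set (List Bool)} (hO : ∀ w, false :: w ∈ O ↔ K w = true) :
    Tells (nb e) Pt e O x (theAct e K x) := by
  intro l
  rw [hO, K_code]
  unfold Vq
  rw [unpair_pairBits]
  simp only [num_bits, chron_tcode]
  rw [theAct_cut e K x _ (eval_mono _ (by rw [length_pairBits]; omega))]

section use

variable {S : Set ℕ} (e x : ℕ)

theorem orc_loc (F : Set ℕ) (P : ℕ) (hF : ∀ m : ℕ, m.bits.length ≤ P → (m ∈ F ↔ m ∈ S))
    (q : List Bool) (hq : q.length ≤ P) : orc (cut P K) F q = orc K S q := by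
  rcases q with _ | ⟨b, q⟩
  · rfl
  · rw [List.length_cons] at hq
    cases b with
    | false =>
      show cut P K q = K q
      unfold cut
      rw [if_pos (by omega)]
    | true =>
      have := hF (num q) ((length_bits_num q).trans (by omega))
      simp only [orc]
      exact decide_eq_decide.2 this

theorem hloc (F : Set ℕ)
    (hF : ∀ m : ℕ, m.bits.length ≤ (Pt e).eval x.bits.length → (m ∈ F ↔ m ∈ S)) (y : ℕ)
    (hy : y ≤ x) : (tk e).C (orc (cut ((Pt e).eval x.bits.length) K) F) x y ↔
      (tk e).C (orc K S) x y :=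
  (Pt_bd e).loc _ _ x y (length_bits_mono hy) (orc_loc F _ hF)

theorem hdis (he : (tk e).i = 0) (F : Set ℕ) (hF : F ⊆ S) (y : ℕ) (hy : y ≤ x)
    (hne : ¬ ((tk e).C (orc (cut ((Pt e).eval x.bits.length) K) F) x y ↔
      (tk e).C (orc K S) x y)) :
    ∃ m ∈ (asked (tk e).M (orc (cut ((Pt e).eval x.bits.length) K) F)
        (pairBits x.bits y.bits)).map (fun q => num q.tail),
      m ∈ S ∧ m ∉ F ∧ m.bits.length ≤ (Pt e).eval x.bits.length := by
  by_contra hcon
  push Not at hcon
  apply hne
  unfold Task.C
  rw [he]
  simp only [Quant]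
  unfold Task.V
  rw [asked_congr (tk e).M (orc (cut ((Pt e).eval x.bits.length) K) F) (orc K S)]
  intro q hq
  have hql := (Pt_bd e).short _ x y (length_bits_mono hy) q hq
  rcases q with _ | ⟨b, q⟩
  · rfl
  · rw [List.length_cons] at hql
    cases b with
    | false =>
      show K q = cut _ K q
      unfold cut
      rw [if_pos (by omega)]
    | true =>
      have h1 := hcon (num q) (List.mem_map.2 ⟨_, hq, rfl⟩)
      have h2 := length_bits_num q
      have h3 : num q ∈ S ↔ num q ∈ F := by
        constructor
        · intro hS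
          by_contra hnF
          have := h1 hS hnF
          omega
        · exact fun h => hF h
      simp only [orc]
      exact decide_eq_decide.2 h3

theorem hqs (F : Set ℕ) (y : ℕ) (hy : y ≤ x) :
    ((asked (tk e).M (orc (cut ((Pt e).eval x.bits.length) K) F)
        (pairBits x.bits y.bits)).map (fun q => num q.tail)).length ≤
        (Pt e).eval x.bits.length ∧
    ∀ m ∈ (asked (tk e).M (orc (cut ((Pt e).eval x.bits.length) K) F)
        (pairBits x.bits y.bits)).map (fun q => num q.tail),
        m.bits.length ≤ (Pt e).eval x.bits.length := by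
  constructor
  · rw [List.length_map]
    exact (Pt_bd e).few _ x y (length_bits_mono hy)
  · intro m hm
    obtain ⟨q, hq, rfl⟩ := List.mem_map.1 hm
    have h1 := (Pt_bd e).short _ x y (length_bits_mono hy) q hq
    have h2 := length_bits_num q.tail
    have h3 : q.tail.length ≤ q.length := by simp
    omega

end use

/-- The machine computes the problem. -/
theorem computes_level0 {S : Set ℕ} (hS : Lac S) (e : ℕ) (he : (tk e).i = 0)
    {C : ℕ → ℕ → Prop} {ρ : ℕ → ℕ} (hC : ∀ x y, C x y ↔ (tk e).C (orc K S) x y)
    (hρ : (tk e).rho = ρ) (h0 : ∀ x, C x 0) : ∃ M : CAlg,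
    M.Computes {q | orc K S q = true} C ρ ∧ ∀ (x : ℕ) (adv : Adversary), adv.Correct C ρ x →
      ∀ n, M.asks {q | orc K S q = true} adv x n [] ≤ 1 := by
  classical
  refine ⟨mach (nb e) Pt e ((Polynomial.C 3 * Pt e + Polynomial.C 3) * (nb e + 1)),
    computes_of_win (act := fun x => theAct e K x)
      (fun x => tells e x (fun w => Iff.rfl)) (Polynomial.C 3 * Pt e + Polynomial.C 3) rfl ?_⟩
  intro x
  refine ⟨(Pt e).eval x.bits.length + 1 + (1 + (2 * (Pt e).eval x.bits.length + 1)), ?_, ?_⟩
  · simp only [Polynomial.eval_add, Polynomial.eval_mul, Polynomial.eval_C]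
    omega
  have hact : theAct e K x = act0 ((Pt e).eval x.bits.length)
      (fun F => (tk e).C (orc (cut ((Pt e).eval x.bits.length) K) F)) ρ
      (fun F y => (asked (tk e).M (orc (cut ((Pt e).eval x.bits.length) K) F)
        (pairBits x.bits y.bits)).map (fun q => num q.tail)) x := by
    unfold theAct
    rw [if_pos he, hρ]
  rw [hact]
  refine win_level0 (S := S) ?_ hS ?_ ?_ ?_ ?_ ?_ (h0 x)
  · intro v
    show (orc K S (true :: _) = true) ↔ _
    simp only [orc, decide_eq_true_eq, pad, num_append_false]
  · rw [nb_eval]; omega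
  · exact (Pt_bd e).self _
  · intro F hF y hy
    rw [hC]
    exact hloc e x F hF y hy
  · intro F hF y hy hne
    rw [hC] at hne
    exact hdis e x he F hF y hy hne
  · intro F y hy
    exact hqs e x F y hy

/-- the oracle set for the positive levels -/
def O1 (S : Set ℕ) : Set (List Bool) :=
  {q | (∃ w, q = false :: w ∧ K w = true) ∨ (∃ v, q = true :: v ∧
    Dig S (unpair v).1.length (unpair (unpair v).2).1.length)}

theorem unpair_pad (N n j : ℕ) : (unpair (pad N (pl n j))).1.length = n ∧
    (unpair (unpair (pad N (pl n j))).2).1.length = j := by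
  have h : ∀ k, pl n j ++ List.replicate k false = pairBits (List.replicate n true)
      (pairBits (List.replicate j true) (List.replicate k false)) := by
    intro k
    unfold pl pairBits
    simp
  unfold pad
  rw [h, unpair_pairBits]
  simp only [unpair_pairBits, List.length_replicate, and_self]

/-- The machine computes the problem. -/
theorem computes_level1 {S : Set ℕ} (hS : Lac S) (e : ℕ) (he : (tk e).i ≠ 0)
    {C : ℕ → ℕ → Prop} {ρ : ℕ → ℕ} (hC : ∀ x y, C x y ↔ (tk e).C (orc K S) x y)
    (hρ : (tk e).rho = ρ) (h0 : ∀ x, C x 0) : ∃ M : CAlg,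
    M.Computes (O1 S) C ρ ∧ ∀ (x : ℕ) (adv : Adversary), adv.Correct C ρ x →
      ∀ n, M.asks (O1 S) adv x n [] ≤ 0 := by
  classical
  have hO : ∀ w, false :: w ∈ O1 S ↔ K w = true := by
    intro w
    unfold O1
    simp
  refine ⟨mach (nb e) Pt e (((Pt e + 1) * (Pt e + 1) + 1) * (nb e + 1)),
    computes_of_win (act := fun x => theAct e K x)
      (fun x => tells e x hO) ((Pt e + 1) * (Pt e + 1) + 1) rfl ?_⟩
  intro x
  refine ⟨((Pt e).eval x.bits.length + 1) * ((Pt e).eval x.bits.length + 1) + 1, ?_, ?_⟩
  · simp only [Polynomial.eval_add, Polynomial.eval_mul, Polynomial.eval_one, le_refl]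
  have hact : theAct e K x = act1 ((Pt e).eval x.bits.length)
      (fun F => (tk e).C (orc (cut ((Pt e).eval x.bits.length) K) F)) ρ x := by
    unfold theAct
    rw [if_neg he, hρ]
  rw [hact]
  refine win_level1 (S := S) ?_ hS ?_ ?_ ?_ (h0 x)
  · intro n j
    obtain ⟨h1, h2⟩ := unpair_pad ((nb e).eval x.bits.length - 2) n j
    unfold O1
    simp only [Set.mem_ofPred_eq, List.cons.injEq, Bool.true_eq_false, false_and, exists_false,
      false_or, true_and, exists_eq_left']
    rw [h1, h2]
  · rw [nb_eval]
  · exact (Pt_bd e).self _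
  · intro F hF y hy
    rw [hC]
    exact hloc e x F hF y hy

end Pool.Agent.V8H57.RX
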