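import Pool.Agent.V8H57.RX.Defs
import Pool.Agent.H620R2.Gauge.A2
import Pool.Agent.H620R2.Gauge.C

/-!
# Transcripts as lists of strings; the blocks of a computation
-/

set_option autoImplicit false

namespace Pool.Agent.V8H57.RX

open Pool.Agent.NPC Pool.Agent.H620R2.Gauge Pool.Agent.V8H57.CX

/-! ### Numbers -/

theorem num_bits (n : ℕ) : num n.bits = n := by
  induction n using Nat.binaryRec' with
  | zero => simp [num]
  | bit b n h ih =>
    rw [Nat.bits_append_bit _ _ h]
    show Nat.bit b (num n.bits) = _
    rw [ih]

theorem num_append_false (l : List Bool) (k : ℕ) : num (l ++ List.replicate k false) = num l := by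
  unfold num
  rw [List.foldr_append]
  congr 1
  induction k with
  | zero => rfl
  | succ k ih =>
    rw [List.replicate_succ, List.foldr_cons, ih]
    rfl

theorem bits_num (l : List Bool) : (num (l ++ [true])).bits = l ++ [true] ∧
    num (l ++ [true]) ≠ 0 := by
  induction l with
  | nil => simp [num]
  | cons b l ih =>
    have e : num (b :: l ++ [true]) = Nat.bit b (num (l ++ [true])) := rfl
    rw [e, Nat.bits_append_bit _ _ (fun h => absurd h ih.2), ih.1]
    refine ⟨rfl, ?_⟩
    rw [Nat.bit_ne_zero_iff]
    intro h
    exact absurd h ih.2

theorem length_bits_mono {m n : ℕ} (h : m ≤ n) : m.bits.length ≤ n.bits.length := by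
  rw [Nat.size_eq_bits_len, Nat.size_eq_bits_len]
  exact Nat.size_le_size h

theorem length_bits_le (n : ℕ) : n.bits.length ≤ n := by
  rw [Nat.size_eq_bits_len, Nat.size_le]
  exact Nat.lt_two_pow_self

theorem num_lt (l : List Bool) : num l < 2 ^ l.length := by
  induction l with
  | nil => simp [num]
  | cons b l ih =>
    show Nat.bit b (num l) < _
    rw [List.length_cons, pow_succ]
    have : Nat.bit b (num l) ≤ 2 * num l + 1 := by
      cases b <;> simp [Nat.bit]
    omega

theorem length_bits_num (l : List Bool) : (num l).bits.length ≤ l.length := by
  rw [Nat.size_eq_bits_len, Nat.size_le]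
  exact num_lt l

/-- a positive number is given by its digits but the last -/
theorem exists_digits {n : ℕ} (h : n ≠ 0) : ∃ w : List Bool, n = num (w ++ [true]) ∧
    w.length + 1 = n.bits.length := by
  have h1 : ∃ w : List Bool, n.bits = w ++ [true] := by
    induction n using Nat.binaryRec' with
    | zero => exact absurd rfl h
    | bit b n hb ih =>
      rw [Nat.bits_append_bit _ _ hb]
      by_cases hn : n = 0
      · subst hn
        have := hb rfl
        subst this
        exact ⟨[], by simp⟩
      · obtain ⟨w, hw⟩ := ih hn
        exact ⟨b :: w, by rw [hw]; rfl⟩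
  obtain ⟨w, hw⟩ := h1
  refine ⟨w, ?_, ?_⟩
  · rw [← hw, num_bits]
  · rw [hw]; simp

/-! ### Transcripts -/

/-- the transcript with the given answers, the newest first -/
def tcode : List (List Bool) → List Bool
  | [] => []
  | r :: l => pairBits r (tcode l)

/-- one step of reading a transcript -/
def cstep (s : List (List Bool) × List Bool) : List (List Bool) × List Bool :=
  if s.2 = [] then s else ((unpair s.2).1 :: s.1, (unpair s.2).2)

/-- the answers in a transcript, the oldest first -/
def chron (a : List Bool) : List (List Bool) := (cstep^[a.length] ([], a)).1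

theorem pairBits_ne_nil (r a : List Bool) : pairBits r a ≠ [] := by
  unfold pairBits
  simp

theorem cstep_tcode (acc : List (List Bool)) (r : List Bool) (l : List (List Bool)) :
    cstep (acc, tcode (r :: l)) = (r :: acc, tcode l) := by
  have h : tcode (r :: l) = pairBits r (tcode l) := rfl
  unfold cstep
  rw [h]
  simp only [pairBits_ne_nil, if_false, unpair_pairBits]

theorem cstep_iterate (l : List (List Bool)) : ∀ (acc : List (List Bool)) (n : ℕ),
    l.length ≤ n → cstep^[n] (acc, tcode l) = (l.reverse ++ acc, []) := by
  induction l with
  | nil =>
    intro acc n _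
    have h : ∀ n, cstep^[n] (acc, []) = (acc, []) := by
      intro n
      induction n with
      | zero => rfl
      | succ n ih =>
        rw [Function.iterate_succ_apply]
        have : cstep (acc, []) = (acc, []) := by simp [cstep]
        rw [this, ih]
    simpa [tcode] using h n
  | cons r l ih =>
    intro acc n hn
    obtain ⟨n, rfl⟩ : ∃ m, n = m + 1 := ⟨n - 1, by simp at hn; omega⟩
    rw [Function.iterate_succ_apply, cstep_tcode, ih (r :: acc) n (by simpa using hn)]
    simp

theorem length_tcode (l : List (List Bool)) : l.length ≤ (tcode l).length := by
  induction l with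
  | nil => simp
  | cons r l ih =>
    rw [tcode, length_pairBits, List.length_cons]
    omega

theorem chron_tcode (l : List (List Bool)) : chron (tcode l) = l.reverse := by
  unfold chron
  rw [cstep_iterate l [] _ (length_tcode l), List.append_nil]

/-! ### Blocks -/

/-- reading one answer: the first `N` answers of a block are single bits, the last one is the
answer to the action coded by these bits -/
def bstep (N : ℕ) (s : List Bool × List (List Bool)) (r : List Bool) :
    List Bool × List (List Bool) :=
  if s.1.length < N then (s.1 ++ [r.headD false], s.2) else ([], s.2 ++ [r])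

/-- the bits of the present block and the answers at the ends of the former blocks -/
def sc (N : ℕ) (l : List (List Bool)) : List Bool × List (List Bool) := l.foldl (bstep N) ([], [])

theorem sc_append (N : ℕ) (l : List (List Bool)) (r : List Bool) :
    sc N (l ++ [r]) = bstep N (sc N l) r := by
  unfold sc
  rw [List.foldl_append]
  rfl

/-- the computation of the present block alone -/
def bstep1 (N : ℕ) (s : List Bool) (r : List Bool) : List Bool :=
  if s.length < N then s ++ [r.headD false] else []

theorem sc_fst (N : ℕ) (l : List (List Bool)) : (sc N l).1 = l.foldl (bstep1 N) [] := by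
  unfold sc
  have : ∀ (l : List (List Bool)) (s : List Bool × List (List Bool)),
      (l.foldl (bstep N) s).1 = l.foldl (bstep1 N) s.1 := by
    intro l
    induction l with
    | nil => intro s; rfl
    | cons r l ih =>
      intro s
      rw [List.foldl_cons, List.foldl_cons, ih]
      congr 1
      unfold bstep bstep1
      split <;> rfl
  exact this l _

theorem length_bstep1 (N : ℕ) (l : List (List Bool)) : ∀ s : List Bool, s.length ≤ N →
    (l.foldl (bstep1 N) s).length ≤ N := by
  induction l with
  | nil => intro s hs; exact hs
  | cons r l ih =>
    intro s hs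
    rw [List.foldl_cons]
    apply ih
    unfold bstep1
    split
    · simp; omega
    · simp

end Pool.Agent.V8H57.RX
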