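import Pool.Agent.V8H57.CX.Defs

/-!
# The number of questions to the adversary
-/

set_option autoImplicit false

namespace Pool.Agent.V8H57.CX

open Pool.Agent.NPC Pool.Agent.H620R2.Gauge

open Classical in
/-- The number of numbers presented to the adversary by the counterexample computation `M` on input
`x`, with the oracle set `S` and the adversary `adv`, within `n` further rounds, when `a` is the
code of the answers received so far. (The recursion is the one of `CAlg.run`.) -/
noncomputable def CAlg.asks (M : CAlg) (S : Set (List Bool)) (adv : Adversary) (x : ℕ) :
    ℕ → List Bool → ℕ
  | 0, _ => 0
  | n + 1, a =>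
    match M.D (pairBits x.bits a) with
    | false :: q => M.asks S adv x n (pairBits [decide (q ∈ S)] a)
    | true :: false :: w => 1 + M.asks S adv x n (pairBits (ansCode (adv a (num w))) a)
    | _ => 0

end Pool.Agent.V8H57.CX
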