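import Pool.Agent.V8H57.RX.Sig

/-!
# The hidden set
-/

set_option autoImplicit false

namespace Pool.Agent.V8H57.RX

open Pool.Agent.NPC Pool.Agent.H620R2.Gauge Pool.Agent.H620R2.Gauge.CC Pool.Agent.V8H57.CX

/-- the language given by the numbers of digits of the members of the hidden set -/
def Lg (S : Set ℕ) : Set (List Bool) :=
  {x | ∃ w : List Bool, w.length = x.length ∧ num (w ++ [true]) ∈ S}

theorem lg_np (S : Set ℕ) : InSigma (orc K S) 1 (Lg S) := by
  have hQ : Poly (fun y : List Bool => [true :: ((unpair y).1 ++ [true])]) :=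
    Poly.cons (Poly.cons (NPC.Poly.const _) (Poly.append (Poly.fst poly_unpair)
      (NPC.Poly.const _))) (NPC.Poly.const _)
  have hH : Poly (fun y : List Bool × List Bool =>
      [y.2.headD false && decide ((unpair y.1).1.length = (unpair y.1).2.length)]) := by
    have h1 : Poly (fun y : List Bool × List Bool => unpair y.1) :=
      poly_unpair.comp (Poly.fst Poly.id)
    refine Poly.cons (Poly.and (poly_headD.comp (Poly.snd Poly.id)) (Poly.decide_eq
      (Poly.length (Poly.fst h1)) (Poly.length (Poly.snd h1)))) (NPC.Poly.const _)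
  refine ⟨_, Polynomial.X, IsFP.tt (A := orc K S) hQ hH, fun x => ?_⟩
  simp only [Quant, Polynomial.eval_X, unpair_pairBits, List.map_cons, List.map_nil,
    List.headD_cons, orc, List.cons.injEq, and_true, Bool.and_eq_true, decide_eq_true_eq]
  constructor
  · rintro ⟨w, h1, h2⟩
    exact ⟨w, h1.le, h2, h1⟩
  · rintro ⟨w, -, h2, h1⟩
    exact ⟨w, h1, h2⟩

theorem exists_large (P : Polynomial ℕ) (b : ℕ) : ∃ n, b ≤ n ∧ P.eval n < 2 ^ n := by
  have h1 : ∀ n : ℕ, 1 ≤ n → P.eval n ≤ P.eval 1 * n ^ P.natDegree := by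
    intro n hn
    rw [Polynomial.eval_eq_sum_range, Polynomial.eval_eq_sum_range, Finset.sum_mul]
    apply Finset.sum_le_sum
    intro i hi
    rw [one_pow, mul_one]
    exact Nat.mul_le_mul_left _ (Nat.pow_le_pow_right hn (by simp at hi; omega))
  have h2 := tendsto_pow_const_div_const_pow_of_one_lt P.natDegree (r := (2 : ℝ)) (by norm_num)
  have h3 := (h2.eventually (gt_mem_nhds (show (0 : ℝ) < 1 / (P.eval 1 + 1) by positivity))).and
    (Filter.eventually_ge_atTop (max b 1))
  obtain ⟨n, h4, h5⟩ := h3.exists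
  refine ⟨n, (le_max_left _ _).trans h5, ?_⟩
  have h6 := h1 n ((le_max_right _ _).trans h5)
  have h7 : ((P.eval 1 * n ^ P.natDegree : ℕ) : ℝ) < 2 ^ n := by
    rw [div_lt_div_iff₀ (by positivity) (by positivity)] at h4
    push_cast
    have h8 : (0 : ℝ) ≤ (n : ℝ) ^ P.natDegree := by positivity
    nlinarith
  have h8 : P.eval 1 * n ^ P.natDegree < 2 ^ n := by exact_mod_cast h7
  omega

/-- the requirement for an algorithm -/
def Req (M : Alg) (p : Polynomial ℕ) (S : Set ℕ) : Prop :=
  ∃ x : List Bool, ¬ (x ∈ (Lg S)ᶜ ↔ ∃ w : List Bool, w.length ≤ p.eval x.length ∧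
    M.out (orc K S) (pairBits w x) = some [true])

theorem out_agree (M : Alg) (F S : Set ℕ) (z : List Bool)
    (h : ∀ v : List Bool, true :: v ∈ asked M (orc K F) z → (num v ∈ S ↔ num v ∈ F)) :
    M.out (orc K S) z = M.out (orc K F) z := by
  apply asked_congr
  intro q hq
  rcases q with _ | ⟨b, q⟩
  · rfl
  · cases b with
    | false => rfl
    | true =>
      simp only [orc]
      exact decide_eq_decide.2 (h q hq)

theorem stage (F : Finset ℕ) (b : ℕ) (M : Alg) (p : Polynomial ℕ) (hF : ∀ s ∈ F, s ≤ b) :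
    ∃ (F' : Finset ℕ) (b' : ℕ), F ⊆ F' ∧ b ≤ b' ∧ (∀ s ∈ F', s ≤ b') ∧
      (∀ s ∈ F', s ∉ F → b < s.bits.length) ∧
      (∀ s ∈ F', ∀ s' ∈ F', s ∉ F → s' ∉ F → s = s') ∧
      ∀ S : Set ℕ, (∀ s ∈ F', s ∈ S) → (∀ s ∈ S, s ∉ F' → b' < s.bits.length) → Req M p S := by
  classical
  obtain ⟨c, hc⟩ := asked_short M
  set T : Polynomial ℕ := Polynomial.C 2 * p + Polynomial.C 1 + Polynomial.X with hT
  obtain ⟨n, hn, hn2⟩ := exists_large (M.p.comp T) b
  set x : List Bool := List.replicate n true with hx
  have hxl : x.length = n := by simp [hx]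
  have hzl : ∀ w : List Bool, w.length ≤ p.eval x.length →
      (pairBits w x).length ≤ T.eval n := by
    intro w hw
    rw [length_pairBits, hT]
    rw [hxl] at hw ⊢
    simp only [Polynomial.eval_add, Polynomial.eval_mul, Polynomial.eval_C, Polynomial.eval_X]
    omega
  have hql : ∀ w : List Bool, w.length ≤ p.eval x.length →
      ∀ (A : Oracle), ∀ q ∈ asked M A (pairBits w x), q.length ≤ c.eval (T.eval n) := by
    intro w hw A q hq
    exact (hc A _ q hq).trans (eval_mono c (hzl w hw))
  by_cases hcase : ∃ w : List Bool, w.length ≤ p.eval x.length ∧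
      M.out (orc K (F : Set ℕ)) (pairBits w x) = some [true]
  · obtain ⟨w, hw, hout⟩ := hcase
    set Q := (asked M (orc K (F : Set ℕ)) (pairBits w x)).map (fun q => num q.tail) with hQ
    have hQl : Q.length < 2 ^ n := by
      rw [hQ, List.length_map]
      refine lt_of_le_of_lt ((asked_length M _ _).trans (eval_mono M.p (hzl w hw))) ?_
      rw [Polynomial.eval_comp] at hn2
      exact hn2
    obtain ⟨m, hm1, hm2⟩ : ∃ m ∈ Finset.Ico (2 ^ n) (2 ^ (n + 1)), m ∉ Q := by
      by_contra hcon
      push Not at hcon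
      have h1 : Finset.Ico (2 ^ n) (2 ^ (n + 1)) ⊆ Q.toFinset := by
        intro m hm
        exact List.mem_toFinset.2 (hcon m hm)
      have h2 := Finset.card_le_card h1
      rw [Nat.card_Ico, pow_succ] at h2
      have h3 := List.toFinset_card_le Q
      omega
    rw [Finset.mem_Ico] at hm1
    have hms : m.bits.length = n + 1 := by
      rw [Nat.size_eq_bits_len]
      apply le_antisymm
      · exact Nat.size_le.2 hm1.2
      · exact Nat.lt_size.2 hm1.1
    refine ⟨insert m F, b + m + c.eval (T.eval n), Finset.subset_insert _ _, by omega, ?_, ?_, ?_,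
      ?_⟩
    · intro s hs
      rcases Finset.mem_insert.1 hs with rfl | hs
      · omega
      · have := hF s hs
        omega
    · intro s hs hsF
      rcases Finset.mem_insert.1 hs with rfl | hs
      · omega
      · exact absurd hs hsF
    · intro s hs s' hs' h1 h2
      have h3 : s = m := (Finset.mem_insert.1 hs).resolve_right h1
      have h4 : s' = m := (Finset.mem_insert.1 hs').resolve_right h2
      rw [h3, h4]
    · intro S hS1 hS2
      refine ⟨x, fun hiff => ?_⟩
      have h1 : M.out (orc K S) (pairBits w x) = some [true] := by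
        rw [out_agree M (F : Set ℕ) S, hout]
        intro v hv
        constructor
        · intro hvS
          by_cases hvF : num v ∈ insert m F
          · rcases Finset.mem_insert.1 hvF with h | h
            · exfalso
              apply hm2
              rw [← h, hQ]
              exact List.mem_map.2 ⟨_, hv, rfl⟩
            · exact h
          · exfalso
            have h2 := hS2 _ hvS hvF
            have h3 := hql w hw _ _ hv
            have h4 := length_bits_num v
            rw [List.length_cons] at h3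
            omega
        · intro h
          exact hS1 _ (Finset.mem_insert_of_mem h)
      refine hiff.2 ⟨w, hw, h1⟩ ?_
      have hm0 : m ≠ 0 := by
        have : 0 < 2 ^ n := by positivity
        omega
      obtain ⟨u, hu1, hu2⟩ := exists_digits hm0
      refine ⟨u, by omega, ?_⟩
      rw [← hu1]
      exact hS1 m (Finset.mem_insert_self _ _)
  · refine ⟨F, b + n + 1 + c.eval (T.eval n), Finset.Subset.refl _, by omega, ?_, ?_, ?_, ?_⟩
    · intro s hs
      have := hF s hs
      omega
    · intro s hs hsF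
      exact absurd hs hsF
    · intro s hs s' hs' h1 h2
      exact absurd hs h1
    · intro S hS1 hS2
      refine ⟨x, fun hiff => ?_⟩
      have hxL : x ∈ (Lg S)ᶜ := by
        rintro ⟨u, hu1, hu2⟩
        have h1 : (num (u ++ [true])).bits.length = n + 1 := by
          rw [(bits_num u).1, List.length_append, hu1, hxl]
          rfl
        by_cases hF' : num (u ++ [true]) ∈ F
        · have h2 := hF _ hF'
          have h3 := length_bits_le (num (u ++ [true]))
          omega
        · have h2 := hS2 _ hu2 hF'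
          omega
      obtain ⟨w, hw, hout⟩ := hiff.1 hxL
      apply hcase
      refine ⟨w, hw, ?_⟩
      rw [← hout]
      symm
      apply out_agree
      intro v hv
      constructor
      · intro hvS
        by_contra hvF
        have h2 := hS2 _ hvS hvF
        have h3 := hql w hw _ _ hv
        have h4 := length_bits_num v
        rw [List.length_cons] at h3
        omega
      · exact fun h => hS1 _ h

/-- the states of the construction -/
structure Sta : Type where
  F : Finset ℕ
  b : ℕ
  h : ∀ s ∈ F, s ≤ b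

/-- one step of the construction -/
noncomputable def nextSta (M : Alg) (p : Polynomial ℕ) (s : Sta) : Sta :=
  ⟨(stage s.F s.b M p s.h).choose, (stage s.F s.b M p s.h).choose_spec.choose,
    (stage s.F s.b M p s.h).choose_spec.choose_spec.2.2.1⟩

theorem nextSta_spec (M : Alg) (p : Polynomial ℕ) (s : Sta) :
    s.F ⊆ (nextSta M p s).F ∧ s.b ≤ (nextSta M p s).b ∧
      (∀ t ∈ (nextSta M p s).F, t ∉ s.F → s.b < t.bits.length) ∧
      (∀ t ∈ (nextSta M p s).F, ∀ t' ∈ (nextSta M p s).F, t ∉ s.F → t' ∉ s.F → t = t') ∧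
      ∀ S : Set ℕ, (∀ t ∈ (nextSta M p s).F, t ∈ S) →
        (∀ t ∈ S, t ∉ (nextSta M p s).F → (nextSta M p s).b < t.bits.length) → Req M p S := by
  have h := (stage s.F s.b M p s.h).choose_spec.choose_spec
  exact ⟨h.1, h.2.1, h.2.2.2.1, h.2.2.2.2.1, h.2.2.2.2.2⟩

instance : Countable Alg := by
  have h1 : Countable {D : List Bool → List Bool | PolyTime D} := countable_polyTime.to_subtype
  have h2 := CC.poly_countable
  let F : Alg → {D : List Bool → List Bool | PolyTime D} × Polynomial ℕ := fun M => (⟨M.D, M.poly⟩, M.p)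
  have hF : Function.Injective F := by
    rintro ⟨D, hD, q⟩ ⟨D', hD', q'⟩ h
    simp only [F, Prod.mk.injEq, Subtype.mk.injEq] at h
    obtain ⟨rfl, rfl⟩ := h
    rfl
  exact hF.countable

/-- The hidden set exists. -/
theorem exists_hidden : ∃ S : Set ℕ, Lac S ∧ ∀ (M : Alg) (p : Polynomial ℕ), Req M p S := by
  classical
  have h2 := CC.poly_countable
  have hne : Nonempty (Alg × Polynomial ℕ) := ⟨(⟨_, CC.const_polyTime [], 0⟩, 0)⟩
  obtain ⟨g, hg⟩ := exists_surjective_nat (Alg × Polynomial ℕ)
  let st : ℕ → Sta := fun t => Nat.rec ⟨∅, 0, by simp⟩ (fun t s => nextSta (g t).1 (g t).2 s) t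
  have hst : ∀ t, st (t + 1) = nextSta (g t).1 (g t).2 (st t) := fun t => rfl
  have hst0 : (st 0).F = ∅ := rfl
  have hsp := fun t => nextSta_spec (g t).1 (g t).2 (st t)
  simp only [← hst] at hsp
  have hmono : ∀ t u, t ≤ u → (st t).F ⊆ (st u).F ∧ (st t).b ≤ (st u).b := by
    intro t u htu
    induction u, htu using Nat.le_induction with
    | base => exact ⟨Finset.Subset.refl _, le_rfl⟩
    | succ u _ ih => exact ⟨ih.1.trans (hsp u).1, ih.2.trans (hsp u).2.1⟩
  -- the stage at which a member appears
  have happ : ∀ s, (∃ t, s ∈ (st t).F) → ∃ t, s ∈ (st (t + 1)).F ∧ s ∉ (st t).F := by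
    intro s hs
    have h1 := Nat.find_spec hs
    have h0 : Nat.find hs ≠ 0 := by
      intro h0
      rw [h0, hst0] at h1
      simp at h1
    refine ⟨Nat.find hs - 1, ?_, ?_⟩
    · rw [Nat.sub_add_cancel (Nat.one_le_iff_ne_zero.2 h0)]
      exact h1
    · exact Nat.find_min hs (by omega)
  refine ⟨{s | ∃ t, s ∈ (st t).F}, ⟨?_, ?_⟩, ?_⟩
  · intro h
    obtain ⟨t, h1, h3⟩ := happ 0 h
    have := (hsp t).2.2.1 0 h1 h3
    simp at this
  · intro s hs s' hs' hlt
    obtain ⟨t, h1, h3⟩ := happ s hs
    obtain ⟨t', h1', h3'⟩ := happ s' hs'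
    have h4 := (hsp t').2.2.1 s' h1' h3'
    by_cases hc : s ∈ (st t').F
    · exact lt_of_le_of_lt ((st t').h s hc) h4
    · exfalso
      have htt : t' ≤ t := by
        by_contra hcon
        exact hc ((hmono (t + 1) t' (by omega)).1 h1)
      rcases Nat.eq_or_lt_of_le htt with heq | hlt'
      · subst heq
        have := (hsp t').2.2.2.1 s h1 s' h1' h3 h3'
        omega
      · have h5 := (st t).h s' ((hmono (t' + 1) t (by omega)).1 h1')
        have h6 := (hsp t).2.2.1 s h1 h3
        have h7 := length_bits_le s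
        omega
  · intro M p
    obtain ⟨t, ht⟩ := hg (M, p)
    have h4 := (hsp t).2.2.2.2
    rw [ht] at h4
    apply h4
    · intro s hs
      exact ⟨t + 1, hs⟩
    · intro s hs hsn
      obtain ⟨u, h5, h6⟩ := happ s hs
      have htu : t + 1 ≤ u := by
        by_contra hcon
        exact hsn ((hmono (u + 1) (t + 1) (by omega)).1 h5)
      exact lt_of_le_of_lt (hmono _ _ htu).2 ((hsp u).2.2.1 s h5 h6)

/-- The complement of the language is not in `NP`. -/
theorem lg_compl {S : Set ℕ} (h : ∀ (M : Alg) (p : Polynomial ℕ), Req M p S) :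
    ¬ InSigma (orc K S) 1 (Lg S)ᶜ := by
  rintro ⟨V, p, ⟨M, hM⟩, hV⟩
  obtain ⟨x, hx⟩ := h M p
  apply hx
  rw [hV x]
  simp only [Quant, hM, Option.some.injEq]

end Pool.Agent.V8H57.RX
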