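import Pool.Agent.V8H57.RX.Base

/-!
# The universal machine
-/

set_option autoImplicit false

namespace Pool.Agent.V8H57.RX

open Pool.Agent.NPC Pool.Agent.H620R2.Gauge Pool.Agent.V8H57.CX

theorem ustep_len (s : List Bool × List Bool × Bool) :
    (ustep s).1.length + (ustep s).2.1.length ≤ s.1.length + s.2.1.length := by
  obtain ⟨a, l, b⟩ := s
  unfold ustep
  cases b with
  | true => simp
  | false =>
    match l with
    | [] => simp
    | true :: [] => simp
    | true :: c :: l' => simp; omega
    | false :: l' => simp

theorem unpair_len (y : List Bool) : (unpair y).1.length + (unpair y).2.length ≤ y.length := by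
  have h : ∀ (k : ℕ) (s : List Bool × List Bool × Bool),
      (ustep^[k] s).1.length + (ustep^[k] s).2.1.length ≤ s.1.length + s.2.1.length := by
    intro k
    induction k with
    | zero => intro s; simp
    | succ k ih =>
      intro s
      rw [Function.iterate_succ_apply]
      exact (ih _).trans (ustep_len s)
  unfold unpair
  have := h y.length ([], y, false)
  simpa using this

theorem cstep_sz (s : List (List Bool) × List Bool) :
    sz (cstep s).1 + 4 * (cstep s).2.length ≤ sz s.1 + 4 * s.2.length + 2 := by
  unfold cstep
  split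
  · omega
  · have h1 := unpair_len s.2
    have h2 := sz_listBool_le (unpair s.2).1
    simp only [sz_list_cons]
    omega

theorem cstep_iter_sz (k : ℕ) : ∀ s : List (List Bool) × List Bool,
    sz (cstep^[k] s).1 + 4 * (cstep^[k] s).2.length ≤ sz s.1 + 4 * s.2.length + 2 * k := by
  induction k with
  | zero => intro s; simp
  | succ k ih =>
    intro s
    rw [Function.iterate_succ_apply]
    have h1 := ih (cstep s)
    have h2 := cstep_sz s
    omega

theorem poly_cstep : Poly cstep := by
  unfold cstep
  refine Poly.ite (Poly.decide_eq (Poly.snd Poly.id) (NPC.Poly.const _)) Poly.id ?_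
  have h1 : Poly (fun s : List (List Bool) × List Bool => unpair s.2) :=
    poly_unpair.comp (Poly.snd Poly.id)
  exact Poly.pair (Poly.cons (Poly.fst h1) (Poly.fst Poly.id)) (Poly.snd h1)

theorem poly_chron : Poly chron := by
  have h : Poly (fun a : List Bool => cstep^[a.length] ([], a)) := by
    refine Poly.iterLen (F := fun _ => cstep) (s := fun a : List Bool => ([], a)) Poly.id
      (Poly.pair (NPC.Poly.const _) Poly.id) (poly_cstep.comp (Poly.snd Poly.id))
      (Polynomial.C 6 * Polynomial.X + Polynomial.C 3) ?_
    intro a k hk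
    have h1 := cstep_iter_sz k ([], a)
    have h2 := sz_listBool_le (cstep^[k] ([], a)).2
    have h3 := sz_listBool_ge a
    have h4 : sz (cstep^[k] ([], a)) = sz (cstep^[k] ([], a)).1 + sz (cstep^[k] ([], a)).2 + 1 :=
      sz_pair _ _
    simp only [Polynomial.eval_add, Polynomial.eval_mul, Polynomial.eval_C, Polynomial.eval_X]
    simp only [sz_list_nil] at h1
    omega
  exact Poly.fst h

theorem poly_bstep1 : Poly (fun p : ℕ × List Bool × List Bool => bstep1 p.1 p.2.1 p.2.2) := by
  unfold bstep1
  refine Poly.ite (Poly.decide_lt (Poly.length (Poly.fst (Poly.snd Poly.id))) (Poly.fst Poly.id))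
    ?_ (NPC.Poly.const _)
  refine Poly.append (Poly.fst (Poly.snd Poly.id)) (Poly.cons ?_ (NPC.Poly.const _))
  refine (Poly.listCases (l := fun p : ℕ × List Bool × List Bool => p.2.2)
    (g := fun _ => false) (h := fun _ b _ => b) (Poly.snd (Poly.snd Poly.id)) (NPC.Poly.const _)
    (Poly.fst (Poly.snd Poly.id))).congr ?_
  rintro ⟨n, s, r⟩
  cases r <;> rfl

/-- the block computed by the machine -/
def blk (nb : Polynomial ℕ) (z : List Bool) : List Bool :=
  (chron (unpair z).2).foldl (bstep1 (nb.eval (unpair z).1.length)) []

theorem poly_blk (nb : Polynomial ℕ) : Poly (blk nb) := by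
  have hx : UPoly (fun z : List Bool => (unpair z).1.length) :=
    UPoly.length (Poly.fst poly_unpair)
  have hn := hx.eval nb
  have hn' : Poly (fun z : List Bool => nb.eval (unpair z).1.length) := hn.toPoly
  obtain ⟨r, hr⟩ := Poly.sz_le hn
  refine Poly.foldl (l := fun z => chron (unpair z).2) (s := fun _ => ([] : List Bool))
    (F := fun z s r => bstep1 (nb.eval (unpair z).1.length) s r)
    (poly_chron.comp (Poly.snd poly_unpair)) (NPC.Poly.const _) ?_ (Polynomial.C 4 * r + Polynomial.C 1)
    ?_
  · exact poly_bstep1.comp (Poly.pair (hn'.comp (Poly.fst Poly.id)) (Poly.snd Poly.id))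
  · intro z k _
    have h1 := length_bstep1 (nb.eval (unpair z).1.length) ((chron (unpair z).2).take k) []
      (Nat.zero_le _)
    have h2 : sz (List.replicate (nb.eval (unpair z).1.length) ()) ≤ r.eval (sz z) := hr z
    have h3 := length_lt_sz (List.replicate (nb.eval (unpair z).1.length) ())
    rw [List.length_replicate] at h3
    refine (sz_listBool_le _).trans ?_
    simp only [Polynomial.eval_add, Polynomial.eval_mul, Polynomial.eval_C]
    have h4 : (((chron (unpair z).2).take k).foldl
        (fun s r => bstep1 (nb.eval (unpair z).1.length) s r) []).length ≤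
        nb.eval (unpair z).1.length := h1
    omega

/-- the next action of the universal machine -/
def mD (nb : Polynomial ℕ) (R : ℕ → Polynomial ℕ) (e : ℕ) (z : List Bool) : List Bool :=
  if (blk nb z).length < nb.eval (unpair z).1.length then false :: false :: H620R2.Gauge.code R e z
  else blk nb z

theorem poly_mD (nb : Polynomial ℕ) (R : ℕ → Polynomial ℕ) (e : ℕ) : PolyTime (mD nb R e) := by
  apply H622R2.polyTime_of_poly_list
  have hx : UPoly (fun z : List Bool => (unpair z).1.length) :=
    UPoly.length (Poly.fst poly_unpair)
  have hn' : Poly (fun z : List Bool => nb.eval (unpair z).1.length) := (hx.eval nb).toPoly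
  refine Poly.ite (Poly.decide_lt (Poly.length (poly_blk nb)) hn') ?_ (poly_blk nb)
  exact Poly.cons (NPC.Poly.const false) (Poly.cons (NPC.Poly.const false) (CC.poly_code R e))

/-- the universal machine -/
noncomputable def mach (nb : Polynomial ℕ) (R : ℕ → Polynomial ℕ) (e : ℕ) (p : Polynomial ℕ) :
    CAlg where
  D := mD nb R e
  poly := poly_mD nb R e
  p := p

theorem blk_eq (nb : Polynomial ℕ) (x : List Bool) (l : List (List Bool)) :
    blk nb (pairBits x (tcode l)) = (sc (nb.eval x.length) l.reverse).1 := by
  unfold blk
  rw [unpair_pairBits, chron_tcode, sc_fst]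

theorem mD_eq (nb : Polynomial ℕ) (R : ℕ → Polynomial ℕ) (e : ℕ) (x : List Bool)
    (l : List (List Bool)) : mD nb R e (pairBits x (tcode l)) =
      if (sc (nb.eval x.length) l.reverse).1.length < nb.eval x.length then
        false :: false :: H620R2.Gauge.code R e (pairBits x (tcode l))
      else (sc (nb.eval x.length) l.reverse).1 := by
  unfold mD
  rw [blk_eq, unpair_pairBits]

end Pool.Agent.V8H57.RX
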