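import Pool.Agent.V8H57.RX.Orc

/-!
# The oracle sets are in the right levels
-/

set_option autoImplicit false

namespace Pool.Agent.V8H57.RX

open Pool.Agent.NPC Pool.Agent.H620R2.Gauge Pool.Agent.H620R2.Gauge.CC Pool.Agent.V8H57.CX

theorem inSigma_zero (A : Oracle) : InSigma A 0 {q | A q = true} := by
  refine ⟨fun q => [A q], 0, ?_, fun q => ?_⟩
  · have h := IsFP.tt (A := A) (Q := fun q => [q]) (H := fun y => y.2)
      (Poly.cons Poly.id (NPC.Poly.const _)) (Poly.snd Poly.id)
    exact h
  · simp [Quant]

/-- forget the outermost string -/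
def fgt (y : List Bool) : List Bool := (unpair y).2

theorem poly_fgt_iter (k : ℕ) : Poly (fgt^[k]) := by
  induction k with
  | zero => exact Poly.id
  | succ k ih =>
    rw [Function.iterate_succ]
    exact ih.comp (Poly.snd poly_unpair)

/-- dummy quantifiers -/
theorem quant_fgt (m : ℕ) : ∀ (k : ℕ) (V : List Bool → List Bool) (b : Bool) (y : List Bool),
    Quant m (fun z => V (fgt^[k] z)) k b y ↔ V y = [true] := by
  intro k
  induction k with
  | zero => intro V b y; cases b <;> simp [Quant]
  | succ k ih =>
    intro V b y
    have key : ∀ (b : Bool) (w : List Bool),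
        (Quant m (fun z => V (fgt^[k + 1] z)) k b (pairBits w y) ↔ V y = [true]) := by
      intro b w
      have h := ih (fun z => V (fgt z)) b (pairBits w y)
      have e1 : (fun z => V (fgt (fgt^[k] z))) = fun z => V (fgt^[k + 1] z) := by
        funext z
        rw [Function.iterate_succ_apply']
      rw [e1] at h
      rw [h]
      unfold fgt
      rw [unpair_pairBits]
    cases b with
    | true =>
      simp only [Quant]
      constructor
      · rintro ⟨w, -, hw⟩
        exact (key _ w).1 hw
      · intro h
        exact ⟨[], Nat.zero_le _, (key _ []).2 h⟩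
    | false =>
      simp only [Quant]
      constructor
      · intro h
        exact (key _ []).1 (h [] (Nat.zero_le _))
      · intro h w _
        exact (key _ w).2 h

/-- the questions of the verifier -/
def vQ (y : List Bool) : List (List Bool) :=
  [(unpair y).2, true :: ((unpair y).1 ++ [true])]

/-- the test of the verifier -/
def vT (w v : List Bool) : Bool :=
  decide (w.length = (unpair v).1.length) &&
    decide ((w ++ [true])[(unpair (unpair v).2).1.length]? = some true)

/-- the verdict of the verifier -/
def vB (w q a : List Bool) : Bool :=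
  match q with
  | [] => false
  | b :: v => if b = true then a.tail.headD false && vT w v else a.headD false

/-- the output of the verifier -/
def vH (y : List Bool × List Bool) : List Bool :=
  [vB (unpair y.1).1 (unpair y.1).2 y.2]

theorem poly_headD : Poly (fun r : List Bool => r.headD false) := by
  refine (Poly.listCases (l := fun r : List Bool => r)
    (g := fun _ => false) (h := fun _ b _ => b) Poly.id (NPC.Poly.const _)
    (Poly.fst (Poly.snd Poly.id))).congr ?_
  intro r
  cases r <;> rfl

theorem poly_vT : Poly (fun p : List Bool × List Bool => vT p.1 p.2) := by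
  unfold vT
  have h1 : Poly (fun p : List Bool × List Bool => unpair p.2) := poly_unpair.comp (Poly.snd Poly.id)
  have h2 : Poly (fun p : List Bool × List Bool => unpair (unpair p.2).2) :=
    poly_unpair.comp (Poly.snd h1)
  refine Poly.and (Poly.decide_eq (Poly.length (Poly.fst Poly.id)) (Poly.length (Poly.fst h1))) ?_
  refine Poly.decide_eq (Poly.getElem? (Poly.append (Poly.fst Poly.id) (NPC.Poly.const _))
    (Poly.length (Poly.fst h2))) (NPC.Poly.const _)

theorem poly_vB : Poly (fun p : List Bool × List Bool × List Bool => vB p.1 p.2.1 p.2.2) := by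
  refine (Poly.listCases (l := fun p : List Bool × List Bool × List Bool => p.2.1)
    (g := fun _ => false)
    (h := fun p b v => if b = true then p.2.2.tail.headD false && vT p.1 v
      else p.2.2.headD false) (Poly.fst (Poly.snd Poly.id)) (NPC.Poly.const _) ?_).congr ?_
  · refine Poly.ite (Poly.decide_eq (Poly.fst (Poly.snd Poly.id)) (NPC.Poly.const _)) ?_ ?_
    · refine Poly.and (poly_headD.comp (Poly.tail (Poly.snd (Poly.snd (Poly.fst Poly.id))))) ?_
      exact poly_vT.comp (Poly.pair (Poly.fst (Poly.fst Poly.id)) (Poly.snd (Poly.snd Poly.id)))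
    · exact poly_headD.comp (Poly.snd (Poly.snd (Poly.fst Poly.id)))
  · rintro ⟨w, q, a⟩
    unfold vB
    cases q <;> rfl

theorem poly_vQ : Poly vQ := by
  unfold vQ
  exact Poly.cons (Poly.snd poly_unpair) (Poly.cons (Poly.cons (NPC.Poly.const _)
    (Poly.append (Poly.fst poly_unpair) (NPC.Poly.const _))) (NPC.Poly.const _))

theorem poly_vH : Poly vH := by
  unfold vH
  have h1 : Poly (fun y : List Bool × List Bool => unpair y.1) := poly_unpair.comp (Poly.fst Poly.id)
  refine Poly.cons ?_ (NPC.Poly.const _)
  exact poly_vB.comp (Poly.pair (Poly.fst h1) (Poly.pair (Poly.snd h1) (Poly.snd Poly.id)))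

theorem inSigma_pos (S : Set ℕ) (i : ℕ) (hi : i ≠ 0) : InSigma (orc K S) i (O1 S) := by
  obtain ⟨k, rfl⟩ : ∃ k, i = k + 1 := ⟨i - 1, by omega⟩
  refine ⟨fun z => vH (fgt^[k] z, (vQ (fgt^[k] z)).map (orc K S)), Polynomial.X, ?_, fun q => ?_⟩
  · exact IsFP.tt (A := orc K S) (Q := fun z => vQ (fgt^[k] z))
      (H := fun y => vH (fgt^[k] y.1, y.2)) (poly_vQ.comp (poly_fgt_iter k))
      (poly_vH.comp (Poly.pair ((poly_fgt_iter k).comp (Poly.fst Poly.id)) (Poly.snd Poly.id)))
  · simp only [Quant, Polynomial.eval_X]
    have key : ∀ w : List Bool, (Quant q.length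
        (fun z => vH (fgt^[k] z, (vQ (fgt^[k] z)).map (orc K S))) k false (pairBits w q) ↔
        vH (pairBits w q, (vQ (pairBits w q)).map (orc K S)) = [true]) := fun w =>
      quant_fgt q.length k (fun z => vH (z, (vQ z).map (orc K S))) false (pairBits w q)
    simp only [key]
    have h1 : ∀ w : List Bool, (vH (pairBits w q, (vQ (pairBits w q)).map (orc K S)) = [true] ↔
        vB w q [orc K S q, orc K S (true :: (w ++ [true]))] = true) := by
      intro w
      unfold vH vQ
      rw [unpair_pairBits]
      simp
    simp only [h1]
    rcases q with _ | ⟨b, v⟩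
    · simp [O1, vB]
    · cases b with
      | false =>
        simp only [O1, Set.mem_ofPred_eq, vB]
        constructor
        · rintro (⟨w, hw, hK⟩ | ⟨v', hv, -⟩)
          · refine ⟨[], Nat.zero_le _, ?_⟩
            simp only [List.cons.injEq, true_and] at hw
            subst hw
            simpa [orc] using hK
          · simp at hv
        · rintro ⟨w, -, hw⟩
          left
          refine ⟨v, rfl, ?_⟩
          simpa [orc] using hw
      | true =>
        simp only [O1, Set.mem_ofPred_eq, vB, Dig]
        constructor
        · rintro (⟨w, hw, -⟩ | ⟨v', hv, w, g1, g2, g3⟩)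
          · simp at hw
          · simp only [List.cons.injEq, true_and] at hv
            subst hv
            refine ⟨w, ?_, ?_⟩
            · have := unpair_len v
              rw [List.length_cons]
              omega
            · simp only [if_true, orc, vT, g1, g3, g2]
              simp
        · rintro ⟨w, -, hw⟩
          right
          simp only [if_true, orc, vT, Bool.and_eq_true, decide_eq_true_eq, List.tail_cons,
            List.headD_cons] at hw
          exact ⟨v, rfl, w, hw.2.1, hw.1, hw.2.2⟩

end Pool.Agent.V8H57.RX
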