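import Pool.Agent.V8H57.RX.Mach

/-!
# Runs of the universal machine
-/

set_option autoImplicit false

namespace Pool.Agent.V8H57.RX

open Pool.Agent.NPC Pool.Agent.H620R2.Gauge Pool.Agent.V8H57.CX

open Classical in
theorem run_false (M : CAlg) (S : Set (List Bool)) (adv : Adversary) (x n : ℕ)
    {a q : List Bool} (h : M.D (pairBits x.bits a) = false :: q) :
    M.run S adv x (n + 1) a = M.run S adv x n (pairBits [decide (q ∈ S)] a) ∧
    M.asks S adv x (n + 1) a = M.asks S adv x n (pairBits [decide (q ∈ S)] a) := by
  constructor
  · rw [CAlg.run, h]
  · rw [CAlg.asks, h]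

theorem run_present (M : CAlg) (S : Set (List Bool)) (adv : Adversary) (x n : ℕ)
    {a w : List Bool} (h : M.D (pairBits x.bits a) = true :: false :: w) :
    M.run S adv x (n + 1) a = M.run S adv x n (pairBits (ansCode (adv a (num w))) a) ∧
    M.asks S adv x (n + 1) a = 1 + M.asks S adv x n (pairBits (ansCode (adv a (num w))) a) := by
  constructor
  · rw [CAlg.run, h]
  · rw [CAlg.asks, h]

theorem run_stop (M : CAlg) (S : Set (List Bool)) (adv : Adversary) (x n : ℕ)
    {a w : List Bool} (h : M.D (pairBits x.bits a) = true :: true :: w) :
    M.run S adv x (n + 1) a = some (num w) ∧ M.asks S adv x (n + 1) a = 0 := by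
  constructor
  · rw [CAlg.run, h]
  · rw [CAlg.asks, h]

theorem run_mono (M : CAlg) (S : Set (List Bool)) (adv : Adversary) (x : ℕ) (m : ℕ) :
    ∀ (n : ℕ) (a : List Bool) (y : ℕ), M.run S adv x n a = some y →
      M.run S adv x (n + m) a = some y := by
  intro n
  induction n with
  | zero => intro a y h; simp [CAlg.run] at h
  | succ n ih =>
    intro a y h
    rw [Nat.add_right_comm]
    rcases hD : M.D (pairBits x.bits a) with _ | ⟨b, q⟩
    · rw [CAlg.run, hD] at h ⊢
      exact h
    · cases b with
      | false =>
        rw [(run_false M S adv x _ hD).1] at h ⊢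
        exact ih _ _ h
      | true =>
        rcases q with _ | ⟨c, w⟩
        · rw [CAlg.run, hD] at h ⊢
          exact h
        · cases c with
          | false =>
            rw [(run_present M S adv x _ hD).1] at h ⊢
            exact ih _ _ h
          | true =>
            rw [(run_stop M S adv x _ hD).1] at h ⊢
            exact h

/-- the string `v`, filled up with the bit `false` -/
def pad (N : ℕ) (v : List Bool) : List Bool := v ++ List.replicate (N - v.length) false

theorem range_getD (v : List Bool) : ∀ N, v.length ≤ N →
    (List.range N).map (fun j => v.getD j false) = pad N v := by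
  intro N hN
  unfold pad
  apply List.ext_getElem
  · simp; omega
  · intro i h1 h2
    simp only [List.getElem_map, List.getElem_range]
    by_cases hi : i < v.length
    · rw [List.getElem_append_left hi, List.getD_eq_getElem?_getD, List.getElem?_eq_getElem hi]
      rfl
    · rw [List.getElem_append_right (by omega), List.getD_eq_getElem?_getD,
        List.getElem?_eq_none (by omega)]
      simp

section sim

variable (nb : Polynomial ℕ) (R : ℕ → Polynomial ℕ) (e : ℕ) (p : Polynomial ℕ)
  (S : Set (List Bool)) (adv : Adversary) (x : ℕ) (C : ℕ → ℕ → Prop) (ρ : ℕ → ℕ)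
  (act : List (List Bool) → List Bool)

open Classical in
/-- The strategy `act` wins from the history `h` within `k` rounds and with at most `c` questions
to the adversary. -/
def Win (N : ℕ) : ℕ → ℕ → List (List Bool) → Prop
  | 0, _, _ => False
  | k + 1, c, h => (act h).length ≤ N ∧
    ((∃ v, act h = false :: true :: v ∧
        Win N k c (h ++ [[decide ((true :: pad (N - 2) v) ∈ S)]])) ∨
      (∃ w c', act h = true :: false :: w ∧ c = c' + 1 ∧ ∀ o : Option ℕ,
        (match o with
          | none => Opt C ρ x (num w)
          | some z => z ≤ x ∧ ¬ Bm C ρ x (num w) z) → Win N k c' (h ++ [ansCode o])) ∨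
      (∃ w, act h = true :: true :: w ∧ Opt C ρ x (num w)))

/-- the oracle set tells the bits of the actions -/
def Tells : Prop := ∀ l : List (List Bool),
  (false :: H620R2.Gauge.code R e (pairBits x.bits (tcode l)) ∈ S) ↔
    (act (sc (nb.eval x.bits.length) l.reverse).2).getD
      (sc (nb.eval x.bits.length) l.reverse).1.length false = true

variable {nb R e p S adv x C ρ act}

theorem block (hT : Tells nb R e S x act) : ∀ (m : ℕ) (l : List (List Bool)) (h : List (List Bool))
    (j : ℕ), j + m = nb.eval x.bits.length →
    sc (nb.eval x.bits.length) l.reverse =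
      ((List.range j).map (fun j => (act h).getD j false), h) →
    ∃ l' : List (List Bool), sc (nb.eval x.bits.length) l'.reverse =
      ((List.range (nb.eval x.bits.length)).map (fun j => (act h).getD j false), h) ∧
      (∀ n, (mach nb R e p).run S adv x (m + n) (tcode l) =
        (mach nb R e p).run S adv x n (tcode l')) ∧
      ∀ n, (mach nb R e p).asks S adv x n (tcode l) ≤
        (mach nb R e p).asks S adv x (n - m) (tcode l') := by
  classical
  intro m
  induction m with
  | zero =>
    intro l h j hj hl
    refine ⟨l, ?_, fun n => by rw [Nat.zero_add], fun n => le_rfl⟩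
    rw [hl, ← hj, Nat.add_zero]
  | succ m ih =>
    intro l h j hj hl
    have hD : (mach nb R e p).D (pairBits x.bits (tcode l)) =
        false :: false :: H620R2.Gauge.code R e (pairBits x.bits (tcode l)) := by
      show mD nb R e (pairBits x.bits (tcode l)) = _
      rw [mD_eq, if_pos]
      rw [hl]
      simp only [List.length_map, List.length_range]
      omega
    have hb : decide (false :: H620R2.Gauge.code R e (pairBits x.bits (tcode l)) ∈ S) =
        (act h).getD j false := by
      have h1 := hT l
      rw [hl] at h1
      simp only [List.length_map, List.length_range] at h1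
      cases hg : (act h).getD j false with
      | true => exact decide_eq_true (h1.2 hg)
      | false => exact decide_eq_false (fun h2 => by rw [h1.1 h2] at hg; exact absurd hg (by simp))
    obtain ⟨l', h1, h2, h3⟩ := ih ([(act h).getD j false] :: l) h (j + 1) (by omega) (by
      rw [List.reverse_cons, sc_append, hl, bstep, if_pos (by simp; omega)]
      rw [List.range_succ, List.map_append]
      rfl)
    have hc : tcode ([(act h).getD j false] :: l) = pairBits [(act h).getD j false] (tcode l) :=
      rfl
    refine ⟨l', h1, fun n => ?_, fun n => ?_⟩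
    · rw [Nat.add_right_comm, (run_false _ S adv x _ hD).1, hb, ← hc, h2]
    · rcases n with _ | n
      · rw [CAlg.asks]
        exact Nat.zero_le _
      · rw [(run_false _ S adv x _ hD).2, hb, ← hc]
        refine (h3 n).trans ?_
        rw [Nat.succ_sub_succ]

/-- A winning strategy is carried out by the machine. -/
theorem win_run (hT : Tells nb R e S x act) (hadv : adv.Correct C ρ x) : ∀ (k c : ℕ)
    (h l : List (List Bool)), Win S x C ρ act (nb.eval x.bits.length) k c h →
    sc (nb.eval x.bits.length) l.reverse = ([], h) →
    (∃ y, (mach nb R e p).run S adv x (k * (nb.eval x.bits.length + 1)) (tcode l) = some y ∧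
      Opt C ρ x y) ∧
    ∀ n, (mach nb R e p).asks S adv x n (tcode l) ≤ c := by
  classical
  intro k
  induction k with
  | zero => intro c h l hw; exact hw.elim
  | succ k ih =>
    intro c h l hw hl
    obtain ⟨hlen, hw⟩ := hw
    obtain ⟨l', h1, h2, h3⟩ := block (p := p) (adv := adv) hT (nb.eval x.bits.length) l h 0
      (by omega) (by rw [hl]; rfl)
    rw [range_getD _ _ hlen] at h1
    have hfull : (pad (nb.eval x.bits.length) (act h)).length = nb.eval x.bits.length := by
      simp [pad]; omega
    have hD : (mach nb R e p).D (pairBits x.bits (tcode l')) =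
        pad (nb.eval x.bits.length) (act h) := by
      show mD nb R e (pairBits x.bits (tcode l')) = _
      rw [mD_eq, h1, if_neg]
      simp only [hfull, lt_self_iff_false, not_false_eq_true]
    have hnext : ∀ r : List Bool, sc (nb.eval x.bits.length) (r :: l').reverse = ([], h ++ [r]) := by
      intro r
      rw [List.reverse_cons, sc_append, h1, bstep, if_neg (by simp only [hfull]; omega)]
    have hfuel : (k + 1) * (nb.eval x.bits.length + 1) =
        nb.eval x.bits.length + (k * (nb.eval x.bits.length + 1) + 1) := by ring
    rw [hfuel, h2]
    rcases hw with ⟨v, ha, hw⟩ | ⟨w, c', ha, hc, hw⟩ | ⟨w, ha, hw⟩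
    · have hD' : (mach nb R e p).D (pairBits x.bits (tcode l')) =
          false :: (true :: pad (nb.eval x.bits.length - 2) v) := by
        rw [hD, ha]
        simp only [pad, List.length_cons, List.cons_append]
        rw [show nb.eval x.bits.length - (v.length + 1 + 1) =
          nb.eval x.bits.length - 2 - v.length by omega]
      obtain ⟨i1, i2⟩ := ih c _ ([decide ((true :: pad (nb.eval x.bits.length - 2) v) ∈ S)] :: l')
        hw (hnext _)
      refine ⟨?_, fun n => ?_⟩
      · rw [(run_false _ S adv x _ hD').1]
        exact i1
      · refine (h3 n).trans ?_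
        rcases n - nb.eval x.bits.length with _ | n'
        · rw [CAlg.asks]
          exact Nat.zero_le _
        · rw [(run_false _ S adv x _ hD').2]
          exact i2 n'
    · have hD' : (mach nb R e p).D (pairBits x.bits (tcode l')) =
          true :: false :: pad (nb.eval x.bits.length - 2) w := by
        rw [hD, ha]
        simp only [pad, List.length_cons, List.cons_append]
        rw [show nb.eval x.bits.length - (w.length + 1 + 1) =
          nb.eval x.bits.length - 2 - w.length by omega]
      have hn : num (pad (nb.eval x.bits.length - 2) w) = num w := num_append_false _ _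
      have ho := hadv (tcode l') (num w)
      obtain ⟨i1, i2⟩ := ih c' _ (ansCode (adv (tcode l') (num w)) :: l') (hw _ ho) (hnext _)
      refine ⟨?_, fun n => ?_⟩
      · rw [(run_present _ S adv x _ hD').1, hn]
        exact i1
      · refine (h3 n).trans ?_
        rcases n - nb.eval x.bits.length with _ | n'
        · rw [CAlg.asks]
          exact Nat.zero_le _
        · rw [(run_present _ S adv x _ hD').2, hn, hc, Nat.add_comm]
          exact Nat.add_le_add_right (i2 n') 1
    · have hD' : (mach nb R e p).D (pairBits x.bits (tcode l')) =
          true :: true :: pad (nb.eval x.bits.length - 2) w := by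
        rw [hD, ha]
        simp only [pad, List.length_cons, List.cons_append]
        rw [show nb.eval x.bits.length - (w.length + 1 + 1) =
          nb.eval x.bits.length - 2 - w.length by omega]
      have hn : num (pad (nb.eval x.bits.length - 2) w) = num w := num_append_false _ _
      refine ⟨⟨num w, ?_, hw⟩, fun n => ?_⟩
      · rw [(run_stop _ S adv x _ hD').1, hn]
      · refine (h3 n).trans ?_
        rcases n - nb.eval x.bits.length with _ | n'
        · rw [CAlg.asks]
          exact Nat.zero_le _
        · rw [(run_stop _ S adv x _ hD').2]
          exact Nat.zero_le _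


end sim

/-- The machine computes the optimization problem if there are winning strategies. -/
theorem computes_of_win {nb : Polynomial ℕ} {R : ℕ → Polynomial ℕ} {e : ℕ} {p : Polynomial ℕ}
    {S : Set (List Bool)} {C : ℕ → ℕ → Prop} {ρ : ℕ → ℕ}
    {act : ℕ → List (List Bool) → List Bool} {c : ℕ}
    (hT : ∀ x, Tells nb R e S x (act x)) (q : Polynomial ℕ)
    (hp : p = q * (nb + 1))
    (hw : ∀ x, ∃ k ≤ q.eval x.bits.length,
      Win S x C ρ (act x) (nb.eval x.bits.length) k c []) :
    (mach nb R e p).Computes S C ρ ∧ ∀ (x : ℕ) (adv : Adversary), adv.Correct C ρ x →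
      ∀ n, (mach nb R e p).asks S adv x n [] ≤ c := by
  refine ⟨fun x adv hadv => ?_, fun x adv hadv n => ?_⟩
  · obtain ⟨k, hk, hw⟩ := hw x
    obtain ⟨⟨y, h1, h2⟩, -⟩ := win_run (p := p) (hT x) hadv k c [] [] hw rfl
    refine ⟨y, ?_, h2⟩
    have h3 : (mach nb R e p).p.eval x.bits.length =
        k * (nb.eval x.bits.length + 1) +
          ((q.eval x.bits.length - k) * (nb.eval x.bits.length + 1)) := by
      show p.eval x.bits.length = _
      rw [hp, Polynomial.eval_mul, Polynomial.eval_add, Polynomial.eval_one, ← Nat.add_mul]
      congr 1
      omega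
    rw [h3]
    exact run_mono _ _ _ _ _ _ _ _ h1
  · obtain ⟨k, hk, hw⟩ := hw x
    exact (win_run (p := p) (hT x) hadv k c [] [] hw rfl).2 n

end Pool.Agent.V8H57.RX
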