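import Pool.Agent.V8H57.RX.Base

/-!
# Questions of algorithms; optimization problems as tasks
-/

set_option autoImplicit false

namespace Pool.Agent.V8H57.RX

open Pool.Agent.NPC Pool.Agent.H620R2.Gauge Pool.Agent.V8H57.CX

/-! ### The questions of an algorithm -/

/-- the questions asked within `n` further rounds -/
def askL (M : Alg) (A : Oracle) (x : List Bool) : ℕ → List Bool → List (List Bool)
  | 0, _ => []
  | n + 1, a =>
    match M.D (pairBits x a) with
    | false :: q => q :: askL M A x n (a ++ [A q])
    | _ => []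

/-- the questions asked on input `x` -/
def asked (M : Alg) (A : Oracle) (x : List Bool) : List (List Bool) :=
  askL M A x (M.p.eval x.length) []

theorem askL_cases (M : Alg) (A : Oracle) (x : List Bool) (n : ℕ) (a : List Bool) :
    (∃ q, M.D (pairBits x a) = false :: q ∧
      askL M A x (n + 1) a = q :: askL M A x n (a ++ [A q]) ∧
      ∀ A' : Oracle, M.run A' x (n + 1) a = M.run A' x n (a ++ [A' q])) ∨
    (askL M A x (n + 1) a = [] ∧ ∀ A' : Oracle, M.run A' x (n + 1) a = M.run A x (n + 1) a) := by
  rcases hD : M.D (pairBits x a) with _ | ⟨b, q⟩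
  · right
    refine ⟨by rw [askL, hD], fun A' => ?_⟩
    rw [Alg.run, Alg.run, hD]
  · cases b with
    | false =>
      left
      refine ⟨q, rfl, by rw [askL, hD], fun A' => ?_⟩
      rw [Alg.run, hD]
    | true =>
      right
      refine ⟨by rw [askL, hD], fun A' => ?_⟩
      rw [Alg.run, Alg.run, hD]

theorem asked_length (M : Alg) (A : Oracle) (x : List Bool) :
    (asked M A x).length ≤ M.p.eval x.length := by
  have key : ∀ (n : ℕ) (a : List Bool), (askL M A x n a).length ≤ n := by
    intro n
    induction n with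
    | zero => intro a; simp [askL]
    | succ n ih =>
      intro a
      rcases askL_cases M A x n a with ⟨q, -, h, -⟩ | ⟨h, -⟩
      · rw [h, List.length_cons]
        have := ih (a ++ [A q])
        omega
      · rw [h]; simp
  exact key _ _

theorem asked_short (M : Alg) : ∃ b : Polynomial ℕ, ∀ (A : Oracle) (x : List Bool),
    ∀ q ∈ asked M A x, q.length ≤ b.eval x.length := by
  obtain ⟨b, hb⟩ := M.next_length
  refine ⟨b, fun A x => ?_⟩
  have key : ∀ (n : ℕ) (a : List Bool), a.length + n ≤ M.p.eval x.length →
      ∀ q ∈ askL M A x n a, q.length ≤ b.eval x.length := by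
    intro n
    induction n with
    | zero => intro a _ q hq; simp [askL] at hq
    | succ n ih =>
      intro a ha q hq
      rcases askL_cases M A x n a with ⟨q', hD, h, -⟩ | ⟨h, -⟩
      · rw [h] at hq
        rcases List.mem_cons.1 hq with rfl | hq
        · have := hb x a (by omega)
          rw [hD, List.length_cons] at this
          omega
        · exact ih _ (by simp; omega) q hq
      · rw [h] at hq
        simp at hq
  exact key _ [] (by simp)

theorem asked_congr (M : Alg) (A A' : Oracle) (x : List Bool)
    (h : ∀ q ∈ asked M A x, A' q = A q) : M.out A' x = M.out A x := by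
  have key : ∀ (n : ℕ) (a : List Bool), (∀ q ∈ askL M A x n a, A' q = A q) →
      M.run A' x n a = M.run A x n a := by
    intro n
    induction n with
    | zero => intro a _; rfl
    | succ n ih =>
      intro a ha
      rcases askL_cases M A x n a with ⟨q', hD, h1, h2⟩ | ⟨h1, h2⟩
      · rw [h1] at ha
        rw [h2 A', h2 A, ha q' (by simp)]
        exact ih _ fun q hq => ha q (List.mem_cons_of_mem _ hq)
      · exact h2 A'
  exact key _ _ h

/-! ### Tasks -/

/-- a task: the data of an optimization problem -/
structure Task : Type where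
  /-- the level -/
  i : ℕ
  /-- the algorithm for the matrix -/
  M : Alg
  /-- the bound for the quantifiers -/
  p : Polynomial ℕ
  /-- the value function -/
  f : {f : List Bool → List Bool | PolyTime f}

instance : Countable Task := by
  have h1 : Countable {D : List Bool → List Bool | PolyTime D} := countable_polyTime.to_subtype
  have h2 := CC.poly_countable
  let F : Task → ℕ × ({D : List Bool → List Bool | PolyTime D} × Polynomial ℕ) × Polynomial ℕ ×
    {D : List Bool → List Bool | PolyTime D} := fun e => (e.i, (⟨e.M.D, e.M.poly⟩, e.M.p), e.p, e.f)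
  have hF : Function.Injective F := by
    rintro ⟨i, ⟨D, hD, q⟩, p, f⟩ ⟨i', ⟨D', hD', q'⟩, p', f'⟩ h
    simp only [F, Prod.mk.injEq, Subtype.mk.injEq] at h
    obtain ⟨rfl, ⟨rfl, rfl⟩, rfl, rfl⟩ := h
    rfl
  exact hF.countable

instance : Nonempty Task :=
  ⟨⟨0, ⟨_, CC.const_polyTime [], 0⟩, 0, ⟨_, CC.const_polyTime []⟩⟩⟩

/-- the matrix -/
def Task.V (e : Task) (A : Oracle) (z : List Bool) : List Bool := (e.M.out A z).getD []

/-- the feasible solutions -/
def Task.C (e : Task) (A : Oracle) (x y : ℕ) : Prop :=
  Quant (e.p.eval (pairBits x.bits y.bits).length) (e.V A) e.i false (pairBits x.bits y.bits)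

/-- the values -/
def Task.rho (e : Task) (y : ℕ) : ℕ := num (e.f.1 y.bits)

theorem quant_congr (m : ℕ) (V V' : List Bool → List Bool) : ∀ (k : ℕ) (b : Bool)
    (y : List Bool), (∀ z : List Bool, z.length ≤ y.length + k * (2 * m + 1) → V z = V' z) →
    (Quant m V k b y ↔ Quant m V' k b y) := by
  intro k
  induction k with
  | zero =>
    intro b y h
    cases b <;> simp only [Quant, h y (by omega)]
  | succ k ih =>
    intro b y h
    have key : ∀ (b : Bool) (w : List Bool), w.length ≤ m →
        (Quant m V k b (pairBits w y) ↔ Quant m V' k b (pairBits w y)) := by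
      intro b w hw
      apply ih
      intro z hz
      apply h
      rw [length_pairBits] at hz
      have : (k + 1) * (2 * m + 1) = k * (2 * m + 1) + (2 * m + 1) := by ring
      omega
    cases b with
    | true =>
      simp only [Quant]
      exact exists_congr fun w => and_congr_right fun hw => key _ w hw
    | false =>
      simp only [Quant]
      exact forall_congr' fun w => imp_congr_right fun hw => key _ w hw

/-- the bounds for a task -/
structure Task.Bd (e : Task) (P : Polynomial ℕ) : Prop where
  self : ∀ n, n ≤ P.eval n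
  loc : ∀ (A A' : Oracle) (x y : ℕ), y.bits.length ≤ x.bits.length →
    (∀ q : List Bool, q.length ≤ P.eval x.bits.length → A q = A' q) → (e.C A x y ↔ e.C A' x y)
  few : ∀ (A : Oracle) (x y : ℕ), y.bits.length ≤ x.bits.length →
    (asked e.M A (pairBits x.bits y.bits)).length ≤ P.eval x.bits.length
  short : ∀ (A : Oracle) (x y : ℕ), y.bits.length ≤ x.bits.length →
    ∀ q ∈ asked e.M A (pairBits x.bits y.bits), q.length ≤ P.eval x.bits.length

theorem Task.exists_bd (e : Task) : ∃ P : Polynomial ℕ, e.Bd P := by
  obtain ⟨qb, hqb⟩ := e.M.out_local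
  obtain ⟨b, hb⟩ := asked_short e.M
  set T : Polynomial ℕ := Polynomial.C 3 * Polynomial.X + Polynomial.C 1 with hT
  set Z : Polynomial ℕ := T + Polynomial.C e.i * (Polynomial.C 2 * e.p.comp T + Polynomial.C 1)
    with hZ
  have hTv : ∀ x y : ℕ, y.bits.length ≤ x.bits.length →
      (pairBits x.bits y.bits).length ≤ T.eval x.bits.length := by
    intro x y h
    rw [length_pairBits, hT]
    simp only [Polynomial.eval_add, Polynomial.eval_mul, Polynomial.eval_C, Polynomial.eval_X]
    omega
  refine ⟨Polynomial.X + qb.comp Z + e.M.p.comp T + b.comp T, ?_, ?_, ?_, ?_⟩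
  · intro n
    simp only [Polynomial.eval_add, Polynomial.eval_X]
    omega
  · intro A A' x y hxy h
    unfold Task.C
    have h0 := hTv x y hxy
    have h1 := eval_mono e.p h0
    apply quant_congr
    intro z hz
    unfold Task.V
    obtain ⟨Q, -, hQ, hQ'⟩ := hqb A z
    rw [hQ' A']
    intro q hq
    refine (h q ?_).symm
    have h2 : z.length ≤ Z.eval x.bits.length := by
      rw [hZ]
      simp only [Polynomial.eval_add, Polynomial.eval_mul, Polynomial.eval_C,
        Polynomial.eval_comp]
      have h3 : e.i * (2 * e.p.eval (pairBits x.bits y.bits).length + 1) ≤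
          e.i * (2 * e.p.eval (T.eval x.bits.length) + 1) := Nat.mul_le_mul_left _ (by omega)
      omega
    have h3 := (hQ q hq).trans (eval_mono qb h2)
    simp only [Polynomial.eval_add, Polynomial.eval_comp]
    omega
  · intro A x y hxy
    have h1 := (asked_length e.M A (pairBits x.bits y.bits)).trans
      (eval_mono e.M.p (hTv x y hxy))
    simp only [Polynomial.eval_add, Polynomial.eval_comp]
    omega
  · intro A x y hxy q hq
    have h1 := (hb A _ q hq).trans (eval_mono b (hTv x y hxy))
    simp only [Polynomial.eval_add, Polynomial.eval_comp]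
    omega

/-! ### Optimal solutions -/

open Classical in
/-- an optimal solution, if there is a solution -/
noncomputable def best (C : ℕ → ℕ → Prop) (ρ : ℕ → ℕ) (x : ℕ) : ℕ :=
  if h : ∃ y, y ≤ x ∧ C x y ∧ ∀ z ≤ x, C x z → ρ z ≤ ρ y then h.choose else 0

theorem best_spec {C : ℕ → ℕ → Prop} {ρ : ℕ → ℕ} {x : ℕ} (h : ∃ y ≤ x, C x y) :
    best C ρ x ≤ x ∧ C x (best C ρ x) ∧ ∀ z ≤ x, C x z → ρ z ≤ ρ (best C ρ x) := by
  classical
  have h1 : ∃ y, y ≤ x ∧ C x y ∧ ∀ z ≤ x, C x z → ρ z ≤ ρ y := by
    obtain ⟨y, hy, hC⟩ := h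
    obtain ⟨y', hy', hmax⟩ := ((Finset.range (x + 1)).filter (fun y => C x y)).exists_max_image ρ
      ⟨y, by simp only [Finset.mem_filter, Finset.mem_range]; exact ⟨by omega, hC⟩⟩
    simp only [Finset.mem_filter, Finset.mem_range] at hy' hmax
    exact ⟨y', by omega, hy'.2, fun z hz hCz => hmax z ⟨by omega, hCz⟩⟩
  unfold best
  rw [dif_pos h1]
  exact h1.choose_spec

theorem best_le (C : ℕ → ℕ → Prop) (ρ : ℕ → ℕ) (x : ℕ) : best C ρ x ≤ x := by
  classical
  unfold best
  split
  · rename_i h
    exact h.choose_spec.1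
  · exact Nat.zero_le _

theorem best_cases (C : ℕ → ℕ → Prop) (ρ : ℕ → ℕ) (x : ℕ) :
    (∃ y ≤ x, C x y) ∨ best C ρ x = 0 := by
  classical
  by_cases h : ∃ y ≤ x, C x y
  · exact Or.inl h
  · right
    unfold best
    rw [dif_neg]
    rintro ⟨y, h1, h2, -⟩
    exact h ⟨y, h1, h2⟩

/-- An optimal solution in a world which is right for all solutions is optimal. -/
theorem opt_best {C C' : ℕ → ℕ → Prop} {ρ : ℕ → ℕ} {x : ℕ} (h0 : C x 0)
    (h : ∀ y ≤ x, C' x y ↔ C x y) : Opt C ρ x (best C' ρ x) := by
  obtain ⟨h1, h2, h3⟩ := best_spec (C := C') (ρ := ρ) (x := x)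
    ⟨0, Nat.zero_le _, (h 0 (Nat.zero_le _)).2 h0⟩
  intro z hz
  refine ⟨(h _ h1).1 h2, fun hlt hC => ?_⟩
  have := h3 z hz ((h z hz).2 hC)
  omega

end Pool.Agent.V8H57.RX
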