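import Pool.Agent.V8H57.RX.Sim
import Pool.Agent.V8H57.RX.Task

/-!
# The two strategies
-/

set_option autoImplicit false

namespace Pool.Agent.V8H57.RX

open Pool.Agent.NPC Pool.Agent.H620R2.Gauge Pool.Agent.V8H57.CX

/-- the sparseness of the hidden set -/
def Lac (S : Set ℕ) : Prop := 0 ∉ S ∧ ∀ s ∈ S, ∀ s' ∈ S, s < s' → s < s'.bits.length

/-! ### Level zero -/

/-- the members of the hidden set found first -/
def brute (P : ℕ) (h : List (List Bool)) : Set ℕ := {m | m ≤ P ∧ h[m]? = some [true]}

/-- all members of the hidden set found -/
def found (P : ℕ) (h : List (List Bool)) (Q : List ℕ) : Set ℕ :=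
  brute P h ∪ {m | ∃ j : ℕ, Q[j]? = some m ∧ h[P + 2 + j]? = some [true]}

/-- the strategy for level zero -/
noncomputable def act0 (P : ℕ) (Cf : Set ℕ → ℕ → ℕ → Prop) (ρ : ℕ → ℕ)
    (qs : Set ℕ → ℕ → List ℕ) (x : ℕ) (h : List (List Bool)) : List Bool :=
  if h.length ≤ P then false :: true :: h.length.bits
  else if h.length = P + 1 then true :: false :: (best (Cf (brute P h)) ρ x).bits
  else match h[P + 1]? with
    | some (true :: zb) =>
      match (qs (brute P h) (best (Cf (brute P h)) ρ x) ++ qs (brute P h) (num zb))[
          h.length - (P + 2)]? with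
      | some m => false :: true :: m.bits
      | none => true :: true :: (best (Cf (found P h (qs (brute P h)
          (best (Cf (brute P h)) ρ x) ++ qs (brute P h) (num zb)))) ρ x).bits
    | _ => true :: true :: (best (Cf (brute P h)) ρ x).bits

section level0

variable {P N : ℕ} {Cf : Set ℕ → ℕ → ℕ → Prop} {ρ : ℕ → ℕ} {qs : Set ℕ → ℕ → List ℕ} {x : ℕ}
  {S : Set ℕ} {O : Set (List Bool)} {C : ℕ → ℕ → Prop}

open Classical in
/-- the answers to the first questions -/
noncomputable def hist (S : Set ℕ) (t : ℕ) : List (List Bool) :=
  (List.range t).map (fun m => [decide (m ∈ S)])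

theorem length_hist (t : ℕ) : (hist S t).length = t := by simp [hist]

theorem brute_hist (l : List (List Bool)) :
    brute P (hist S (P + 1) ++ l) = {m | m ≤ P ∧ m ∈ S} := by
  ext m
  simp only [brute, Set.mem_ofPred_eq]
  refine and_congr_right fun hm => ?_
  rw [List.getElem?_append_left (by rw [length_hist]; omega)]
  unfold hist
  rw [List.getElem?_map, List.getElem?_range (by omega)]
  simp

theorem bits_len_le {m B : ℕ} (h : m ≤ B) : m.bits.length ≤ B := (length_bits_le m).trans h

open Classical in
theorem win_level0
    (hO : ∀ v : List Bool, (true :: pad (N - 2) v ∈ O) ↔ num v ∈ S)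
    (hS : Lac S) (hN : P + 2 ≤ N) (hx : x.bits.length ≤ P)
    (hloc : ∀ F : Set ℕ, (∀ m : ℕ, m.bits.length ≤ P → (m ∈ F ↔ m ∈ S)) →
      ∀ y ≤ x, (Cf F x y ↔ C x y))
    (hdis : ∀ F : Set ℕ, F ⊆ S → ∀ y ≤ x, ¬ (Cf F x y ↔ C x y) →
      ∃ m ∈ qs F y, m ∈ S ∧ m ∉ F ∧ m.bits.length ≤ P)
    (hqs : ∀ F, ∀ y ≤ x, (qs F y).length ≤ P ∧ ∀ m ∈ qs F y, m.bits.length ≤ P)
    (h0 : C x 0) :
    Win O x C ρ (act0 P Cf ρ qs x) N (P + 1 + (1 + (2 * P + 1))) 1 [] := by
  -- the first questions
  have phase1 : ∀ (t : ℕ), t ≤ P + 1 →
      Win O x C ρ (act0 P Cf ρ qs x) N (1 + (2 * P + 1)) 1 (hist S (P + 1)) →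
      Win O x C ρ (act0 P Cf ρ qs x) N (t + (1 + (2 * P + 1))) 1 (hist S (P + 1 - t)) := by
    intro t
    induction t with
    | zero => intro _ h; rwa [Nat.zero_add, Nat.sub_zero]
    | succ t ih =>
      intro ht h
      have hl : (hist S (P + 1 - (t + 1))).length = P + 1 - (t + 1) := length_hist _
      have ha : act0 P Cf ρ qs x (hist S (P + 1 - (t + 1))) =
          false :: true :: (P + 1 - (t + 1)).bits := by
        unfold act0
        rw [if_pos (by rw [hl]; omega), hl]
      rw [Nat.add_right_comm]
      refine ⟨?_, Or.inl ⟨(P + 1 - (t + 1)).bits, ha, ?_⟩⟩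
      · rw [ha]
        have := bits_len_le (m := P + 1 - (t + 1)) (B := P) (by omega)
        simp only [List.length_cons]
        omega
      · have h1 : hist S (P + 1 - (t + 1)) ++
            [[decide ((true :: pad (N - 2) (P + 1 - (t + 1)).bits) ∈ O)]] =
            hist S (P + 1 - t) := by
          have e : P + 1 - t = P + 1 - (t + 1) + 1 := by omega
          rw [e]
          unfold hist
          rw [List.range_succ, List.map_append, List.map_singleton]
          congr 3
          rw [decide_eq_decide, hO, num_bits]
        rw [h1]
        exact ih (by omega) h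
  have hstart := phase1 (P + 1) le_rfl
  rw [Nat.sub_self] at hstart
  apply hstart
  -- the question to the adversary
  set F : Set ℕ := {m | m ≤ P ∧ m ∈ S} with hF
  set y := best (Cf F) ρ x with hy
  have hb : ∀ l, brute P (hist S (P + 1) ++ l) = F := fun l => brute_hist l
  have hb0 : brute P (hist S (P + 1)) = F := by
    have := hb []
    rwa [List.append_nil] at this
  have hyx : y ≤ x := best_le _ _ _
  have hlen : (hist S (P + 1)).length = P + 1 := length_hist _
  have ha : act0 P Cf ρ qs x (hist S (P + 1)) = true :: false :: y.bits := by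
    unfold act0
    rw [if_neg (by rw [hlen]; omega), if_pos hlen, hb0]
  have hyP : y.bits.length ≤ P := (length_bits_mono hyx).trans hx
  rw [Nat.add_comm 1 (2 * P + 1)]
  refine ⟨?_, Or.inr (Or.inl ⟨y.bits, 0, ha, rfl, ?_⟩)⟩
  · rw [ha]
    simp only [List.length_cons]
    omega
  intro o ho
  rw [num_bits] at ho
  rcases o with _ | z
  · -- the presented number is optimal
    have ho' : Opt C ρ x y := ho
    have ha2 : act0 P Cf ρ qs x (hist S (P + 1) ++ [ansCode none]) = true :: true :: y.bits := by
      unfold act0
      rw [if_neg (by rw [List.length_append, hlen]; simp), if_neg (by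
        rw [List.length_append, hlen]; simp), hb]
      rw [List.getElem?_append_right (by rw [hlen]), hlen]
      simp only [Nat.sub_self, ansCode]
      rfl
    refine ⟨?_, Or.inr (Or.inr ⟨y.bits, ha2, ?_⟩)⟩
    · rw [ha2]
      simp only [List.length_cons]
      omega
    · rw [num_bits]
      exact ho'
  · -- a counterexample
    obtain ⟨hz, hB⟩ : z ≤ x ∧ ¬ Bm C ρ x y z := ho
    set Q : List ℕ := qs F y ++ qs F z with hQ
    set h2 : List (List Bool) := hist S (P + 1) ++ [ansCode (some z)] with hh2
    have hh2l : h2.length = P + 2 := by rw [hh2, List.length_append, hlen]; rfl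
    set g : ℕ → List (List Bool) := fun t => h2 ++ (Q.take t).map (fun m => [decide (m ∈ S)])
      with hg
    have hQl : Q.length ≤ 2 * P := by
      rw [hQ, List.length_append]
      have h3 := (hqs F y hyx).1
      have h4 := (hqs F z hz).1
      omega
    have hQm : ∀ m ∈ Q, m.bits.length ≤ P := by
      intro m hm
      rcases List.mem_append.1 hm with h | h
      · exact (hqs F y hyx).2 m h
      · exact (hqs F z hz).2 m h
    have hgl : ∀ t, t ≤ Q.length → (g t).length = P + 2 + t := by
      intro t ht
      simp only [hg, List.length_append, hh2l, List.length_map, List.length_take]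
      omega
    have hgb : ∀ t, brute P (g t) = F := by
      intro t
      simp only [hg, hh2, List.append_assoc]
      exact hb _
    have hg1 : ∀ t, (g t)[P + 1]? = some (true :: z.bits) := by
      intro t
      simp only [hg]
      rw [List.getElem?_append_left (by rw [hh2l]; omega), hh2,
        List.getElem?_append_right (by rw [hlen]), hlen]
      simp [ansCode]
    have hact : ∀ t, t ≤ Q.length → act0 P Cf ρ qs x (g t) =
        match Q[t]? with
        | some m => false :: true :: m.bits
        | none => true :: true :: (best (Cf (found P (g t) Q)) ρ x).bits := by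
      intro t ht
      unfold act0
      rw [if_neg (by rw [hgl t ht]; omega), if_neg (by rw [hgl t ht]; omega), hg1]
      simp only [hgb, num_bits]
      rw [hgl t ht, show P + 2 + t - (P + 2) = t by omega]
    -- the last answer
    have hlast : ∀ k, Win O x C ρ (act0 P Cf ρ qs x) N (k + 1) 0 (g Q.length) := by
      intro k
      have ha3 := hact Q.length le_rfl
      rw [List.getElem?_eq_none le_rfl] at ha3
      have hfd : ∀ m, m ∈ found P (g Q.length) Q ↔ m ∈ F ∨ (m ∈ Q ∧ m ∈ S) := by
        intro m
        simp only [found, hgb, Set.mem_union, Set.mem_ofPred_eq]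
        refine or_congr_right ⟨?_, ?_⟩
        · rintro ⟨j, hj1, hj2⟩
          have hj : j < Q.length := by
            by_contra hcon
            rw [List.getElem?_eq_none (by omega)] at hj1
            simp at hj1
          refine ⟨List.mem_of_getElem? hj1, ?_⟩
          simp only [hg] at hj2
          rw [List.getElem?_append_right (by rw [hh2l]; omega), hh2l,
            show P + 2 + j - (P + 2) = j by omega, List.take_length, List.getElem?_map, hj1] at hj2
          simpa using hj2
        · rintro ⟨hm1, hm2⟩
          obtain ⟨j, hj⟩ := List.getElem?_of_mem hm1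
          refine ⟨j, hj, ?_⟩
          simp only [hg]
          rw [List.getElem?_append_right (by rw [hh2l]; omega), hh2l,
            show P + 2 + j - (P + 2) = j by omega, List.take_length, List.getElem?_map, hj]
          simpa using hm2
      -- a member of the hidden set has been found
      have hFS : F ⊆ S := fun m hm => hm.2
      have hdisc : ∃ m ∈ Q, m ∈ S ∧ m ∉ F ∧ m.bits.length ≤ P := by
        by_cases hc1 : Cf F x y ↔ C x y
        · by_cases hc2 : Cf F x z ↔ C x z
          · exfalso
            apply hB
            rcases best_cases (Cf F) ρ x with hex | hzero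
            · obtain ⟨b1, b2, b3⟩ := best_spec (ρ := ρ) hex
              refine ⟨hc1.1 b2, fun hlt hCz => ?_⟩
              have := b3 z hz (hc2.2 hCz)
              rw [← hy] at this
              omega
            · rw [← hy] at hzero
              refine ⟨by rw [hzero]; exact h0, fun hlt hCz => ?_⟩
              obtain ⟨b1, b2, b3⟩ := best_spec (C := Cf F) (ρ := ρ) ⟨z, hz, hc2.2 hCz⟩
              have := b3 z hz (hc2.2 hCz)
              rw [← hy] at this
              omega
          · obtain ⟨m, hm1, hm2⟩ := hdis F hFS z hz hc2
            exact ⟨m, List.mem_append_right _ hm1, hm2⟩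
        · obtain ⟨m, hm1, hm2⟩ := hdis F hFS y hyx hc1
          exact ⟨m, List.mem_append_left _ hm1, hm2⟩
      obtain ⟨s, hsQ, hsS, hsF, hsl⟩ := hdisc
      have hsP : P < s := by
        by_contra hcon
        exact hsF ⟨by omega, hsS⟩
      have hall : ∀ m : ℕ, m.bits.length ≤ P → (m ∈ found P (g Q.length) Q ↔ m ∈ S) := by
        intro m hm
        rw [hfd]
        constructor
        · rintro (h | h)
          · exact h.2
          · exact h.2
        · intro hmS
          by_cases hmP : m ≤ P
          · exact Or.inl ⟨hmP, hmS⟩
          · right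
            have hms : m = s := by
              rcases lt_trichotomy m s with hlt | heq | hgt
              · have := hS.2 m hmS s hsS hlt
                omega
              · exact heq
              · have := hS.2 s hsS m hmS hgt
                omega
            rw [hms]
            exact ⟨hsQ, hsS⟩
      refine ⟨?_, Or.inr (Or.inr ⟨_, ha3, ?_⟩)⟩
      · rw [ha3]
        have h5 := (length_bits_mono (best_le (Cf (found P (g Q.length) Q)) ρ x)).trans hx
        simp only [List.length_cons]
        omega
      · rw [num_bits]
        exact opt_best h0 (hloc _ hall)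
    -- the questions after the counterexample
    have phase2 : ∀ (t k : ℕ), t ≤ Q.length →
        Win O x C ρ (act0 P Cf ρ qs x) N (t + (k + 1)) 0 (g (Q.length - t)) := by
      intro t
      induction t with
      | zero => intro k _; rw [Nat.zero_add, Nat.sub_zero]; exact hlast k
      | succ t ih =>
        intro k ht
        rw [Nat.add_right_comm]
        have hlt : Q.length - (t + 1) < Q.length := by omega
        have ha4 := hact (Q.length - (t + 1)) hlt.le
        rw [List.getElem?_eq_getElem hlt] at ha4
        refine ⟨?_, Or.inl ⟨_, ha4, ?_⟩⟩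
        · rw [ha4]
          have := hQm _ (List.getElem_mem hlt)
          simp only [List.length_cons]
          omega
        · have h6 : g (Q.length - (t + 1)) ++
              [[decide ((true :: pad (N - 2) (Q[Q.length - (t + 1)]).bits) ∈ O)]] =
              g (Q.length - t) := by
            have e : Q.length - t = Q.length - (t + 1) + 1 := by omega
            rw [e]
            simp only [hg]
            rw [List.take_succ_eq_append_getElem hlt, List.map_append, List.map_singleton,
              List.append_assoc]
            congr 4
            rw [decide_eq_decide, hO, num_bits]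
          rw [h6]
          exact ih k (by omega)
    have hfin := phase2 Q.length (2 * P - Q.length) le_rfl
    rw [Nat.sub_self] at hfin
    have h7 : Q.length + (2 * P - Q.length + 1) = 2 * P + 1 := by omega
    rw [h7] at hfin
    have h8 : g 0 = hist S (P + 1) ++ [ansCode (some z)] := by
      simp [hg, hh2]
    rw [h8] at hfin
    exact hfin

end level0

end Pool.Agent.V8H57.RX
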