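import Pool.Agent.V8H57.RX.Strat

/-!
# The strategy for positive levels
-/

set_option autoImplicit false

namespace Pool.Agent.V8H57.RX

open Pool.Agent.NPC Pool.Agent.H620R2.Gauge Pool.Agent.V8H57.CX

/-- the question about the digit number `j` of the member with `n + 1` digits -/
def pl (n j : ℕ) : List Bool :=
  pairBits (List.replicate n true) (pairBits (List.replicate j true) [])

/-- the information given by the oracle: the digit number `j` of the member of `S` with `n + 1`
digits is one -/
def Dig (S : Set ℕ) (n j : ℕ) : Prop :=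
  ∃ w : List Bool, w.length = n ∧ num (w ++ [true]) ∈ S ∧ (w ++ [true])[j]? = some true

/-- the set determined by the answers -/
def read (P : ℕ) (h : List (List Bool)) : Set ℕ :=
  {m | ∃ w : List Bool, w.length ≤ P ∧ m = num (w ++ [true]) ∧
    ∀ j ≤ w.length, (h[w.length * (P + 1) + j]? = some [true] ↔ (w ++ [true])[j]? = some true)}

/-- the strategy for positive levels -/
noncomputable def act1 (P : ℕ) (Cf : Set ℕ → ℕ → ℕ → Prop) (ρ : ℕ → ℕ) (x : ℕ)
    (h : List (List Bool)) : List Bool :=
  if h.length < (P + 1) * (P + 1) then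
    false :: true :: pl (h.length / (P + 1)) (h.length % (P + 1))
  else true :: true :: (best (Cf (read P h)) ρ x).bits

open Classical in
/-- the answers -/
noncomputable def hist1 (P : ℕ) (S : Set ℕ) (t : ℕ) : List (List Bool) :=
  (List.range t).map (fun t => [decide (Dig S (t / (P + 1)) (t % (P + 1)))])

theorem length_hist1 (P : ℕ) (S : Set ℕ) (t : ℕ) : (hist1 P S t).length = t := by simp [hist1]

theorem dig_iff {S : Set ℕ} (hS : Lac S) {w : List Bool} (hw : num (w ++ [true]) ∈ S) (j : ℕ) :
    Dig S w.length j ↔ (w ++ [true])[j]? = some true := by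
  constructor
  · rintro ⟨w', h1, h2, h3⟩
    have key : ∀ u u' : List Bool, u.length = u'.length → num (u ++ [true]) ∈ S →
        num (u' ++ [true]) ∈ S → ¬ num (u ++ [true]) < num (u' ++ [true]) := by
      intro u u' hl hu hu' hlt
      have h4 := hS.2 _ hu _ hu' hlt
      have l1 : (num (u' ++ [true])).bits.length = u'.length + 1 := by
        rw [(bits_num u').1]; simp
      have l2 : (num (u ++ [true])).bits.length = u.length + 1 := by
        rw [(bits_num u).1]; simp
      have := length_bits_le (num (u ++ [true]))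
      omega
    have h4 : num (w' ++ [true]) = num (w ++ [true]) := by
      have k1 := key w' w h1 h2 hw
      have k2 := key w w' h1.symm hw h2
      omega
    have h5 : w' ++ [true] = w ++ [true] := by
      rw [← (bits_num w').1, ← (bits_num w).1, h4]
    rw [← h5]
    exact h3
  · intro h
    exact ⟨w, rfl, hw, h⟩

theorem read_iff {P : ℕ} {S : Set ℕ} (hS : Lac S) (m : ℕ) (hm : m.bits.length ≤ P) :
    m ∈ read P (hist1 P S ((P + 1) * (P + 1))) ↔ m ∈ S := by
  classical
  have hget : ∀ n j : ℕ, n ≤ P → j ≤ P →
      ((hist1 P S ((P + 1) * (P + 1)))[n * (P + 1) + j]? = some [true] ↔ Dig S n j) := by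
    intro n j hn hj
    unfold hist1
    have h1 : n * (P + 1) + j < (P + 1) * (P + 1) := by
      calc n * (P + 1) + j < n * (P + 1) + (P + 1) := by omega
        _ = (n + 1) * (P + 1) := by ring
        _ ≤ (P + 1) * (P + 1) := Nat.mul_le_mul_right _ (by omega)
    rw [List.getElem?_map, List.getElem?_range h1]
    have h2 : (n * (P + 1) + j) / (P + 1) = n := by
      rw [Nat.add_comm, Nat.add_mul_div_right _ _ (by omega), Nat.div_eq_of_lt (by omega),
        Nat.zero_add]
    have h3 : (n * (P + 1) + j) % (P + 1) = j := by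
      rw [Nat.add_comm, Nat.add_mul_mod_self_right, Nat.mod_eq_of_lt (by omega)]
    simp only [Option.map_some, h2, h3, Option.some.injEq, List.cons.injEq, and_true,
      decide_eq_true_eq]
  constructor
  · rintro ⟨w, h1, h2, h3⟩
    have hwP : w.length + 1 ≤ P := by
      rw [h2, (bits_num w).1] at hm
      simpa using hm
    have h4 : Dig S w.length w.length := by
      rw [← hget _ _ h1 h1, h3 _ le_rfl]
      simp
    obtain ⟨w', i1, i2, i3⟩ := h4
    have h5 : w ++ [true] = w' ++ [true] := by
      apply List.ext_getElem?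
      intro j
      by_cases hj : j ≤ w.length
      · have h6 := h3 j hj
        rw [hget _ _ h1 (by omega), ← i1, dig_iff hS i2 j] at h6
        have hj' : j < (w ++ [true]).length := by simp; omega
        have hj'' : j < (w' ++ [true]).length := by simp; omega
        rw [List.getElem?_eq_getElem hj', List.getElem?_eq_getElem hj''] at h6 ⊢
        congr 1
        have h7 : ((w' ++ [true])[j] = true) ↔ ((w ++ [true])[j] = true) := by
          simpa using h6
        rw [Bool.eq_iff_iff]
        exact h7.symm
      · rw [List.getElem?_eq_none (by simp; omega), List.getElem?_eq_none (by simp; omega)]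
    rw [h2, h5]
    exact i2
  · intro hmS
    have hm0 : m ≠ 0 := fun h => hS.1 (h ▸ hmS)
    obtain ⟨w, h1, h2⟩ := exists_digits hm0
    refine ⟨w, by omega, h1, fun j hj => ?_⟩
    rw [hget _ _ (by omega) (by omega)]
    exact dig_iff hS (h1 ▸ hmS) j

open Classical in
theorem win_level1 {P N : ℕ} {Cf : Set ℕ → ℕ → ℕ → Prop} {ρ : ℕ → ℕ} {x : ℕ}
    {S : Set ℕ} {O : Set (List Bool)} {C : ℕ → ℕ → Prop}
    (hO : ∀ n j : ℕ, (true :: pad (N - 2) (pl n j) ∈ O) ↔ Dig S n j)
    (hS : Lac S) (hN : 4 * P + 4 ≤ N) (hx : x.bits.length ≤ P)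
    (hloc : ∀ F : Set ℕ, (∀ m : ℕ, m.bits.length ≤ P → (m ∈ F ↔ m ∈ S)) →
      ∀ y ≤ x, (Cf F x y ↔ C x y))
    (h0 : C x 0) :
    Win O x C ρ (act1 P Cf ρ x) N ((P + 1) * (P + 1) + 1) 0 [] := by
  set T := (P + 1) * (P + 1) with hT
  have phase : ∀ (t : ℕ), t ≤ T →
      Win O x C ρ (act1 P Cf ρ x) N 1 0 (hist1 P S T) →
      Win O x C ρ (act1 P Cf ρ x) N (t + 1) 0 (hist1 P S (T - t)) := by
    intro t
    induction t with
    | zero => intro _ h; rwa [Nat.zero_add, Nat.sub_zero]
    | succ t ih =>
      intro ht h
      have hl : (hist1 P S (T - (t + 1))).length = T - (t + 1) := length_hist1 _ _ _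
      have ha : act1 P Cf ρ x (hist1 P S (T - (t + 1))) =
          false :: true :: pl ((T - (t + 1)) / (P + 1)) ((T - (t + 1)) % (P + 1)) := by
        unfold act1
        rw [if_pos (by rw [hl]; omega), hl]
      have h1 : (T - (t + 1)) / (P + 1) ≤ P := by
        have : (T - (t + 1)) / (P + 1) < P + 1 := by
          rw [Nat.div_lt_iff_lt_mul (by omega), ← hT]
          omega
        omega
      have h2 : (T - (t + 1)) % (P + 1) ≤ P := by
        have := Nat.mod_lt (T - (t + 1)) (show 0 < P + 1 by omega)
        omega
      refine ⟨?_, Or.inl ⟨_, ha, ?_⟩⟩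
      · rw [ha]
        simp only [List.length_cons, pl, length_pairBits, List.length_replicate, List.length_nil]
        omega
      · have h3 : hist1 P S (T - (t + 1)) ++
            [[decide ((true :: pad (N - 2) (pl ((T - (t + 1)) / (P + 1))
              ((T - (t + 1)) % (P + 1)))) ∈ O)]] = hist1 P S (T - t) := by
          have e : T - t = T - (t + 1) + 1 := by omega
          rw [e]
          unfold hist1
          rw [List.range_succ, List.map_append, List.map_singleton]
          congr 3
          rw [decide_eq_decide, hO]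
        rw [h3]
        exact ih (by omega) h
  have hstart := phase T le_rfl
  rw [Nat.sub_self] at hstart
  apply hstart
  have ha : act1 P Cf ρ x (hist1 P S T) =
      true :: true :: (best (Cf (read P (hist1 P S T))) ρ x).bits := by
    unfold act1
    rw [if_neg (by rw [length_hist1, hT]; omega)]
  refine ⟨?_, Or.inr (Or.inr ⟨_, ha, ?_⟩)⟩
  · rw [ha]
    have h5 := (length_bits_mono (best_le (Cf (read P (hist1 P S T))) ρ x)).trans hx
    simp only [List.length_cons]
    omega
  · rw [num_bits]
    exact opt_best h0 (hloc _ fun m hm => read_iff hS m hm)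

end Pool.Agent.V8H57.RX
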